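import Pool.Agent.Helper8.P.Core8

/-!
Gabber's theorem, including dimension seven.
-/

namespace Pool.Agent.GP

open Module Matrix Pool.Agent.Ball

attribute [local instance 100] LieRing.ofAssociativeRing

/-- **Gabber's theorem** for a Lie algebra stable under adjoints with respect to a Hermitian form
which is far from balanced -/
theorem prime_core' {p : ℕ} (hp : p.Prime) (h5 : 5 ≤ p)
    (L : Submodule ℂ (Matrix (Fin p) (Fin p) ℂ))
    (hbr : ∀ X ∈ L, ∀ Y ∈ L, X * Y - Y * X ∈ L) (htr : ∀ X ∈ L, X.trace = 0)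
    (hirr : ∀ W : Submodule ℂ (Fin p → ℂ), (∀ X ∈ L, ∀ w ∈ W, X.mulVec w ∈ W) → W = ⊥ ∨ W = ⊤)
    {H0 : Matrix (Fin p) (Fin p) ℂ} (hH : Unbal H0)
    (hadj : ∀ X ∈ L, ∃ X' ∈ L, ∀ u v, hf H0 (X' *ᵥ u) v = hf H0 u (X *ᵥ v))
    (B : Matrix (Fin p) (Fin p) ℂ) (hB : B ∈ L) (hB0 : B ≠ 0)
    (hBs : ∀ u v, hf H0 (B *ᵥ u) v + hf H0 u (B *ᵥ v) = 0)
    (hBd : ∀ v : Fin p → ℂ, v ∈ Submodule.span ℂ {w | ∃ r : ℝ, B *ᵥ w = (r : ℂ) • w}) :
    ∃ U V : Matrix (Fin p) (Fin p) ℂ, U * V = 1 ∧ V * U = 1 ∧ ∀ i j, U * rot i j * V ∈ L := by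
  have hker : 2 ≤ finrank ℂ (LinearMap.ker B.mulVecLin) := by
    have := three_le_ker hH B hBs hBd
    omega
  have hBd' : ∀ v : Fin p → ℂ, v ∈ Submodule.span ℂ {w | ∃ r : ℂ, B.mulVec w = r • w} := by
    intro v
    refine Submodule.span_mono ?_ (hBd v)
    rintro w ⟨r, hr⟩
    exact ⟨r, hr⟩
  by_cases h7 : p = 7
  · subst h7
    have hI := opL_irr L hbr (Nat.succ_pos 6) hirr
    obtain ⟨Bo, hBo⟩ : ∃ Bo : opL L hbr, (Bo : Module.End ℂ (Fin 7 → ℂ)) = Matrix.toLin' B :=
      ⟨⟨_, B, hB, rfl⟩, rfl⟩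
    have hBss : (Bo : Module.End ℂ (Fin 7 → ℂ)).IsSemisimple := by
      apply isSemisimple_of_span
      rw [hBo]
      exact hBd'
    have hBo0 : Bo ≠ 0 := by
      rintro rfl
      apply hB0
      have h1 : Matrix.toLin' B = 0 := hBo.symm
      exact (Matrix.toLin').map_eq_zero_iff.mp h1
    obtain ⟨J, v, MC, m, r, E, F, hm, hr, hF, hF0, hF6, hE, hE0, hEz, hgen, hdiag⟩ :=
      exists_core2 (V := Fin 7 → ℂ) (opL L hbr) (by
        rintro _ ⟨X, hX, rfl⟩
        show LinearMap.trace ℂ _ (Matrix.toLin' X) = 0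
        rw [Matrix.trace_toLin'_eq, htr X hX]) 6 hp (by simp) Bo hBss hBo0
    have hBm : ∀ a, B *ᵥ v a = m a • v a := by
      intro a
      have := hm a
      rw [hBo, Matrix.toLin'_apply] at this
      exact this
    apply rots_back L hbr v
    apply rots_of_chain' (n := 6) _ (LM_br _ v) MC (by decide) (by norm_num)
    · rintro ⟨-, h1, h2, h3, h4, h5⟩
      obtain ⟨u, E1, E2, F1, F2, s, t, G⟩ := exists_g2data hbr htr v MC E F hF hF0 hF6 hE hE0 hEz
        hgen hdiag h1 h2 h3 h4 h5 B hB m hBm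
      exact g2_false hH hbr hirr hadj hB hBs hBd hB0 G
    · intro hc
      -- the eigenvalues are in arithmetic progression
      obtain ⟨ρ, hρ⟩ : ∃ ρ, ρ = r (MC.i 0) := ⟨_, rfl⟩
      have h1 : ∀ k (hk : k < 6 + 1), m ⟨k, hk⟩ = m 0 - k * ρ := by
        intro k
        induction k with
        | zero =>
          intro hk
          rw [Nat.cast_zero, zero_mul, sub_zero]
          rfl
        | succ k ih =>
          intro hk
          have h2 := hr k (by omega)
          rw [hc k (by omega), ← hρ, ih (by omega)] at h2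
          push_cast
          linear_combination -h2
      have h2 : ∀ a, m a = m 0 - (a : ℕ) * ρ := fun a => h1 a.1 a.2
      have htm := trace_of_diag B v m hBm
      by_cases h0 : ρ = 0
      · have h3 : ∀ a, m a = m 0 := fun a => by rw [h2, h0, mul_zero, sub_zero]
        rw [htr B hB] at htm
        simp only [h3] at htm
        rw [Finset.sum_const, Finset.card_univ, Fintype.card_fin] at htm
        have h4 : m 0 = 0 := by simpa using htm
        apply hB0
        rw [← Matrix.toLin'.map_eq_zero_iff]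
        apply v.ext
        intro a
        rw [Matrix.toLin'_apply, hBm, h3, h4, zero_smul, LinearMap.zero_apply]
      · have h3 : Function.Injective m := by
          intro a a' h
          rw [h2 a, h2 a'] at h
          have h4 : ((a : ℕ) : ℂ) = ((a' : ℕ) : ℂ) := by
            have h5 : (((a : ℕ) : ℂ) - ((a' : ℕ) : ℂ)) * ρ = 0 := by linear_combination -h
            rcases mul_eq_zero.mp h5 with h6 | h6
            · exact sub_eq_zero.mp h6
            · exact absurd h6 h0
          exact Fin.ext (by exact_mod_cast h4)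
        have h4 := finrank_ker_le v _ m hm h3
        rw [hBo] at h4
        have h5 : LinearMap.ker (Matrix.toLin' B) = LinearMap.ker B.mulVecLin := rfl
        rw [h5] at h4
        omega
  · exact prime_core hp h5 h7 L hbr htr hirr B hB hB0 hBd' hker

end Pool.Agent.GP
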