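import Pool.Agent.Helper8.P.Final
import Pool.Agent.Helper8.P.Core9

/-!
The abstract theorem on abelian varieties with a place of prime rank and unbalanced signature,
including rank seven.
-/

open scoped ComplexConjugate

namespace Pool.Agent.Ball

open Module Matrix NumberField Pool.Agent.Helper7
open Pool.Agent.Helper8.D (ent ent_apply ent_act ent_mul)
open Pool.Agent.Helper28.GPC (tw isInv_tw entry_tw tw_star tw_snd)

set_option linter.unusedSectionVars false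

section family

variable {I : Type} [Fintype I] [DecidableEq I] (n : I → ℕ)
  {κ : I → Type} [∀ i, Fintype (κ i)] [∀ i, DecidableEq (κ i)] {ϖ : ℂ}
  (P : ∀ i, PData (κ i) ϖ)
  {k : ℕ} (α : MultilinearMap ℂ (fun _ : Fin (2 * k) => HW κ n) ℂ)
  (i : I) {K : Type} [Field K] [NumberField K] {m : ℕ} (F : UF (P i) K m)
  (hϖ : ϖ ≠ 0)
  (hB : ∀ v : Fin (2 * k) → HW κ n, (∀ r, IsRatP n P (v r)) → ∃ q : ℚ, α v = ϖ ^ k * q)
  (hA : ∀ v : Fin (2 * k) → HW κ n, (∀ r i m j, IsAlgebraic ℚ (v r i m j)) →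
      IsAlgebraic ℚ (α v))

include hϖ hB in
/-- adjoints -/
lemma cAt_adj (σ₀ : K →+* ℂ) : ∀ A ∈ cAt n P α i F σ₀, ∃ A' ∈ cAt n P α i F σ₀,
    ∀ u v, hf (HG F σ₀) (A' *ᵥ u) v = hf (HG F σ₀) u (A *ᵥ v) := by
  classical
  have key : ∀ S : Finset (K →+* ℂ), IsIdl n P α (S.inf fun τ => vanAt P i F τ) := by
    intro S
    induction S using Finset.induction_on with
    | empty =>
      rw [Finset.inf_empty]
      exact IsIdl.top n P α
    | insert τ S _ ih =>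
      rw [Finset.inf_insert]
      exact (isIdl_vanAt n P α i F hϖ hB τ).inf ih
  rintro _ ⟨X, hX, hX2, rfl, hX0⟩
  obtain ⟨S, hS⟩ : ∃ S, S = (Finset.univ.filter fun τ => τ ≠ σ₀ ∧
    τ ≠ ComplexEmbedding.conjugate σ₀) := ⟨_, rfl⟩
  have hXJ : X ∈ S.inf fun τ => vanAt P i F τ := by
    rw [Submodule.mem_finsetInf]
    intro τ hτ
    rw [hS, Finset.mem_filter] at hτ
    refine ⟨hX0 τ hτ.2.1 hτ.2.2, hX0 _ ?_ ?_⟩
    · intro h
      apply hτ.2.2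
      rw [← h, conj_conj_emb]
    · intro h
      apply hτ.2.1
      rw [← conj_conj_emb τ, h, conj_conj_emb]
  obtain ⟨A', ⟨Y, hY, hY2, hYJ, hYe⟩, hadj⟩ := kAt_adj n P α i F hϖ hB (key S) σ₀ _
    ⟨X, hX, hX2, hXJ, rfl⟩
  refine ⟨A', ⟨Y, hY, hY2, hYe, fun τ h1 h2 => ?_⟩, hadj⟩
  have h3 : S.inf (fun τ => vanAt P i F τ) ≤ vanAt P i F τ :=
    Finset.inf_le (by rw [hS]; exact Finset.mem_filter.mpr ⟨Finset.mem_univ _, h1, h2⟩)
  exact (h3 hYJ).1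

/-- the adjoint of a traceless matrix is traceless -/
lemma trace_adj {m : ℕ} (H : Matrix (Fin m) (Fin m) ℂ) (hnd : ∀ v, (∀ u, hf H u v = 0) → v = 0)
    (X X' : Matrix (Fin m) (Fin m) ℂ) (h : ∀ u v, hf H (X' *ᵥ u) v = hf H u (X *ᵥ v))
    (hX : X.trace = 0) : X'.trace = 0 := by
  have h1 : X'ᴴ * H = H * X := by
    ext a b
    have h2 := h (Pi.single a 1) (Pi.single b 1)
    unfold hf at h2
    rw [Matrix.star_mulVec, ← Matrix.dotProduct_mulVec, Matrix.mulVec_mulVec,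
      Matrix.mulVec_mulVec] at h2
    simpa using h2
  have h2 : IsUnit H := by
    rw [← Matrix.mulVec_injective_iff_isUnit]
    intro v w hvw
    rw [← sub_eq_zero]
    apply hnd
    intro u
    unfold hf
    rw [Matrix.mulVec_sub, hvw, sub_self, dotProduct_zero]
  obtain ⟨U, hU⟩ := h2
  have h3 : X'ᴴ = H * X * (U⁻¹ : (Matrix (Fin m) (Fin m) ℂ)ˣ) := by
    rw [← h1, ← hU, Units.mul_inv_cancel_right]
  have h4 : X'ᴴ.trace = 0 := by
    rw [h3, Matrix.trace_mul_comm, ← Matrix.mul_assoc, ← hU, Units.inv_mul, Matrix.one_mul, hX]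
  rw [Matrix.trace_conjTranspose] at h4
  exact star_eq_zero.mp h4

include hϖ hB hA in
/-- rotations at a place of prime rank -/
theorem rotP' (hm : m.Prime) (h5 : 5 ≤ m) (σ₀ : K →+* ℂ) (hL : Unbal (HG F σ₀))
    (hsep : ∀ τ, τ ≠ σ₀ → τ ≠ ComplexEmbedding.conjugate σ₀ → Sep P i F σ₀ τ) :
    ∃ U V : Matrix (Fin m) (Fin m) ℂ, U * V = 1 ∧ V * U = 1 ∧
      ∀ a b, U * rot a b * V ∈ cAt n P α i F σ₀ := by
  obtain ⟨B, hBc, hBs, hBd, hB0⟩ := concentratedP n P α i F hϖ hB hA hm σ₀ hL hsep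
  have hBt := trace_zero hL B hBs hBd
  have hns : ∃ X ∈ tl (cAt n P α i F σ₀), ∀ a : ℂ, X ≠ a • 1 := by
    refine ⟨B, ⟨hBc, hBt⟩, fun a ha => hB0 ?_⟩
    have h1 := hBt
    rw [ha, Matrix.trace_smul, Matrix.trace_one, Fintype.card_fin, smul_eq_mul] at h1
    rcases mul_eq_zero.mp h1 with h2 | h2
    · rw [ha, h2, zero_smul]
    · exact absurd h2 (Nat.cast_ne_zero.mpr hm.pos.ne')
  have hid : ∀ X ∈ gAt n P α i F σ₀, ∀ Y ∈ tl (cAt n P α i F σ₀),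
      X * Y - Y * X ∈ tl (cAt n P α i F σ₀) := fun X hX Y hY =>
    ⟨cAt_br n P α i F σ₀ X hX Y hY.1, trace_br X Y⟩
  have hle : tl (cAt n P α i F σ₀) ≤ gAt n P α i F σ₀ :=
    inf_le_left.trans (cAt_le n P α i F σ₀)
  obtain ⟨U, V, h1, h2, h3⟩ := GP.prime_core' hm h5 (tl (cAt n P α i F σ₀))
    (fun X hX Y hY => hid X (hle hX) Y hY) (fun X hX => hX.2)
    (GP.ideal_irr hm (gAt n P α i F σ₀) _ (gAt_br n P α i F σ₀)
      (gAt_irr n P α i F hϖ hB hA σ₀) hle hid hns) hL (fun X hX => by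
        obtain ⟨X', hX', hadj⟩ := cAt_adj n P α i F hϖ hB σ₀ X hX.1
        exact ⟨X', ⟨hX', trace_adj _ hL.2.1 X X' hadj hX.2⟩, hadj⟩) B ⟨hBc, hBt⟩ hB0 hBs hBd
  exact ⟨U, V, h1, h2, fun a b => (h3 a b).1⟩

end family

section final

variable {κ : Type} [Fintype κ] [DecidableEq κ]
    (P : PData κ (2 * Real.pi * Complex.I)) {K : Type} [Field K] [NumberField K] {m : ℕ}
    (F : UF P K m) {k : ℕ}
    (α : (HW (fun _ : Unit => κ) (fun _ => 1)) [⋀^Fin (2 * k)]→ₗ[ℂ] ℂ)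

/-- rotations at all places -/
theorem all_rotP' (hm : m.Prime) (h5 : 5 ≤ m) (σ₀ : K →+* ℂ) (hL : Unbal (HG F σ₀))
    (hsep : ∀ τ, τ ≠ σ₀ → τ ≠ ComplexEmbedding.conjugate σ₀ →
      Sep (fun _ : Unit => P) () F σ₀ τ)
    (hB : ∀ v : Fin (2 * k) → HW (fun _ : Unit => κ) (fun _ => 1),
      (∀ r, IsRatP (fun _ => 1) (fun _ : Unit => P) (v r)) →
      ∃ q : ℚ, α v = (2 * Real.pi * Complex.I) ^ k * q)
    (hA : ∀ v : Fin (2 * k) → HW (fun _ : Unit => κ) (fun _ => 1),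
      (∀ r i m j, IsAlgebraic ℚ (v r i m j)) → IsAlgebraic ℚ (α v))
    (σ : K →+* ℂ) : HasRot P F α σ := by
  have hϖ : (2 * Real.pi * Complex.I : ℂ) ≠ 0 := Complex.two_pi_I_ne_zero
  obtain ⟨a, ha⟩ : ∃ a, a = (α : MultilinearMap ℂ
    (fun _ : Fin (2 * k) => HW (fun _ : Unit => κ) (fun _ => 1)) ℂ) := ⟨_, rfl⟩
  have hB' : ∀ v : Fin (2 * k) → HW (fun _ : Unit => κ) (fun _ => 1),
      (∀ r, IsRatP (fun _ => 1) (fun _ : Unit => P) (v r)) →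
      ∃ q : ℚ, a v = (2 * Real.pi * Complex.I) ^ k * q := by rw [ha]; exact hB
  have hA' : ∀ v : Fin (2 * k) → HW (fun _ : Unit => κ) (fun _ => 1),
      (∀ r i m j, IsAlgebraic ℚ (v r i m j)) → IsAlgebraic ℚ (a v) := by rw [ha]; exact hA
  obtain ⟨U, V, h1, h2, h3⟩ := rotP' (fun _ => 1) (fun _ : Unit => P) a () F hϖ hB' hA'
    hm h5 σ₀ hL hsep
  obtain ⟨τ, hτ⟩ := Helper84.exists_aut σ₀ σ
  refine ⟨U.map τ, V.map τ, ?_, ?_, fun i j => ?_⟩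
  · rw [← Matrix.map_mul, h1]
    ext a b
    rw [Matrix.map_apply, Matrix.one_apply]
    split_ifs <;> simp
  · rw [← Matrix.map_mul, h2]
    ext a b
    rw [Matrix.map_apply, Matrix.one_apply]
    split_ifs <;> simp
  · have h4 := cAt_tw (fun _ => 1) (fun _ : Unit => P) a () F hϖ hB' τ σ₀ _ (h3 i j)
    rw [Matrix.map_mul, Matrix.map_mul, rot_map, hτ] at h4
    obtain ⟨X, hX, hX2, hX3, hX4⟩ := h4
    rw [ha] at hX
    exact ⟨X, hX, hX2, hX3, hX4⟩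

theorem abstract_prime' (hm : m.Prime) (h5 : 5 ≤ m) (σ₀ : K →+* ℂ)
    (hc : NumberField.ComplexEmbedding.conjugate σ₀ ≠ σ₀) (hL : Unbal (HG F σ₀))
    (hsep : ∀ τ, τ ≠ σ₀ → τ ≠ NumberField.ComplexEmbedding.conjugate σ₀ →
      ∃ g : ℂ ≃+* ℂ, (∃ v, 0 < (hf (HG F ((g : ℂ →+* ℂ).comp σ₀)) v v).re) ∧
        (∃ v, (hf (HG F ((g : ℂ →+* ℂ).comp σ₀)) v v).re < 0) ∧
        Definite (HG F ((g : ℂ →+* ℂ).comp τ)))
    (hB : ∀ v : Fin (2 * k) → HW (fun _ : Unit => κ) (fun _ => 1),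
      (∀ r, IsRatP (fun _ => 1) (fun _ : Unit => P) (v r)) →
      ∃ q : ℚ, α v = (2 * Real.pi * Complex.I) ^ k * q)
    (hA : ∀ v : Fin (2 * k) → HW (fun _ : Unit => κ) (fun _ => 1),
      (∀ r i m j, IsAlgebraic ℚ (v r i m j)) → IsAlgebraic ℚ (α v))
    (hk : 2 * k < detDeg m ∨ Fintype.card κ < 2 * k + detDeg m) :
    α ∈ Submodule.span ℚ {ω | ∃ γ : Fin k → (HW (fun _ : Unit => κ) (fun _ => 1) →ₗ[ℂ]
        HW (fun _ : Unit => κ) (fun _ => 1) →ₗ[ℂ] ℂ),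
      (∀ a, γ a ∈ GW (fun _ => 1) (fun _ : Unit => P)) ∧ ω = wedge γ} :=
  M9a P F α Complex.two_pi_I_ne_zero (fun σ => all_complex P F σ₀ hc σ) hB hA
    (all_rotP' P F α hm h5 σ₀ hL (fun τ h1 h2 => by
      obtain ⟨g, h3, h4, h5⟩ := hsep τ h1 h2
      exact ⟨g, HG_isHermitian F _, h3, h4, h5⟩) hB hA) hk

end final

end Pool.Agent.Ball
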