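import Pool.Agent.Helper8.P.AV
import Pool.Agent.Helper8.P.Final7

/-!
Grothendieck classes on abelian varieties with a separated place of prime rank and unbalanced
multiplicities, including rank seven.
-/

open scoped ComplexConjugate

namespace Pool.Agent.Ball

open Module NumberField Matrix Pool.Agent.GPC Pool.Agent.Helper7
open Pool.Agent.Helper39.AF Pool.Agent.Helper71.AF
open Pool.Agent.Helper83.Ball (vec conj_conj' cB_vec hf_HG vec_eq_zero proj_vec exists_vec rho_vec
  HG_herm isEnd_rho pos_fil neg_conj definite_of_pure lorentz_of_one one isIsogeny_one hf_nondeg)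

/-- Grothendieck classes on abelian varieties with complex multiplication by `K` of prime rank `m`
and multiplicity `q`, `1 ≤ q ≤ (m - 3) / 2`, at a separated place are divisorial, below the degree
of the determinants and in the complementary range. -/
theorem main_prime (A : AbVar) (K : Type) [Field K] [NumberField K] [IsCMField K] (m q : ℕ)
    (ρ : K → A.H1 → A.H1) (C : A.IsMultSep K m q ρ) (hm : m.Prime) (hq : 1 ≤ q)
    (hqm : 2 * q + 3 ≤ m) (k : ℕ)
    (hk : 2 * k < 2 * m ∨ 2 * A.g < 2 * k + 2 * m) (α : A.Class (2 * k)) :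
    A.IsGrothendieckClass k α ↔ A.IsDivisorialClass k α := by
  refine ⟨fun hα => ?_, fun h => grothendieck_of_divisorial h⟩
  obtain ⟨F, hF⟩ := nonempty_UFP A K m q ρ C
  obtain ⟨σ₁, hs1, hs2⟩ := C.signature
  have hL := unbal_of F ρ hF σ₁ q hs1 hq hqm
  have hc : ComplexEmbedding.conjugate σ₁ ≠ σ₁ := fun h =>
    IsTotallyComplex.complexEmbedding_not_isReal σ₁ (ComplexEmbedding.isReal_iff.mpr h)
  have hsep : ∀ τ, τ ≠ σ₁ → τ ≠ ComplexEmbedding.conjugate σ₁ →
      ∃ g : ℂ ≃+* ℂ,
        (∃ v, 0 < (hf (HG F ((g : ℂ →+* ℂ).comp σ₁)) v v).re) ∧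
        (∃ v, (hf (HG F ((g : ℂ →+* ℂ).comp σ₁)) v v).re < 0) ∧
        Definite (HG F ((g : ℂ →+* ℂ).comp τ)) := by
    intro τ h1 h2
    obtain ⟨g, h3, h4⟩ := hs2 τ h1 h2
    obtain ⟨hv, hw⟩ := indef_of_not_pure F ρ hF _ h3
    exact ⟨g, hv, hw, definite_of_pure F ρ hF _ h4⟩
  have hodd : ¬ Even m := by
    rw [Nat.not_even_iff_odd]
    rcases hm.eq_two_or_odd' with h | h
    · omega
    · exact h
  have hiso := isIsogeny_one A
  have hG := grothendieck_transfer hiso α hα
  set β : Form (fun _ : Unit => A) (fun _ => 1) (2 * k) :=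
    α.compLinearMap (one A).symm.toLinearMap with hβ
  have h1 := abstract_prime' (pData A) F β hm (by omega) _ hc hL hsep (fun v hv => hG.2 v
    fun r i j => (mem_pData_Q _ _).mp (hv r i j)) hG.1 (by
      rw [card_index, detDeg_eq, if_neg hodd]; exact hk)
  have h2 := isDivisorial_of_span (fun _ : Unit => A) (fun _ => 1) k β h1
  have h3 := divisorial_transfer hiso (ι := fun _ => id)
    (fun _ => ⟨⟨⟨fun _ _ => rfl, fun _ _ => rfl⟩, fun _ h => h, fun _ h => h, fun _ h => h⟩,
      fun _ _ => rfl⟩) β h2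
  have h4 : β.compLinearMap (one A).toLinearMap = α := by
    ext v
    rfl
  rwa [h4] at h3

end Pool.Agent.Ball
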