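import Pool.Agent.Helper8.B.Place

/-!
Skew operators with real eigenvalues for a Hermitian form of unbalanced signature.
-/

open scoped ComplexConjugate

namespace Pool.Agent.Ball

open Module Matrix

variable {m : ℕ}

/-- an indefinite nondegenerate Hermitian form whose signature `(r, s)` satisfies `|r - s| ≥ 3` -/
def Unbal (H : Matrix (Fin m) (Fin m) ℂ) : Prop :=
  H.IsHermitian ∧ (∀ v, (∀ u, hf H u v = 0) → v = 0) ∧
    (∃ v, 0 < (hf H v v).re) ∧ (∃ v, (hf H v v).re < 0) ∧
    ∃ W : Submodule ℂ (Fin m → ℂ), m + 3 ≤ 2 * finrank ℂ W ∧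
      ((∀ w ∈ W, w ≠ 0 → 0 < (hf H w w).re) ∨ (∀ w ∈ W, w ≠ 0 → (hf H w w).re < 0))

lemma exists_eigenbasis (B : Matrix (Fin m) (Fin m) ℂ)
    (hBd : ∀ v : Fin m → ℂ, v ∈ Submodule.span ℂ {w | ∃ r : ℝ, B *ᵥ w = (r : ℂ) • w}) :
    ∃ (v : Basis (Fin m) ℂ (Fin m → ℂ)) (r : Fin m → ℝ), ∀ a, B *ᵥ v a = (r a : ℂ) • v a := by
  classical
  have hsp : ⊤ ≤ Submodule.span ℂ {w | ∃ r : ℝ, B *ᵥ w = (r : ℂ) • w} := fun v _ => hBd v
  have h1 : ∀ a, ∃ r : ℝ, B *ᵥ (Basis.ofSpan hsp a) = (r : ℂ) • (Basis.ofSpan hsp a) := by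
    intro a
    exact Basis.ofSpan_subset hsp (Set.mem_range_self a)
  have hfin : Fintype ↑((linearIndepOn_empty ℂ id).extend (Set.empty_subset
      {w : Fin m → ℂ | ∃ r : ℝ, B *ᵥ w = (r : ℂ) • w})) :=
    FiniteDimensional.fintypeBasisIndex (Basis.ofSpan hsp)
  have hc : Fintype.card ↑((linearIndepOn_empty ℂ id).extend (Set.empty_subset
      {w : Fin m → ℂ | ∃ r : ℝ, B *ᵥ w = (r : ℂ) • w})) = m := by
    rw [← finrank_eq_card_basis (Basis.ofSpan hsp), finrank_fintype_fun_eq_card, Fintype.card_fin]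
  obtain ⟨e⟩ : Nonempty (↑((linearIndepOn_empty ℂ id).extend (Set.empty_subset
      {w : Fin m → ℂ | ∃ r : ℝ, B *ᵥ w = (r : ℂ) • w})) ≃ Fin m) :=
    ⟨Fintype.equivFinOfCardEq hc⟩
  choose r hr using h1
  refine ⟨(Basis.ofSpan hsp).reindex e, fun a => r (e.symm a), fun a => ?_⟩
  rw [Basis.reindex_apply]
  exact hr _

/-- a span of pairwise orthogonal isotropic vectors meets a definite subspace trivially -/
lemma card_add_le (H : Matrix (Fin m) (Fin m) ℂ) (v : Basis (Fin m) ℂ (Fin m → ℂ))
    (S : Finset (Fin m)) (hS : ∀ a ∈ S, ∀ b ∈ S, hf H (v a) (v b) = 0)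
    (W : Submodule ℂ (Fin m → ℂ)) (hW : ∀ w ∈ W, hf H w w = 0 → w = 0) :
    S.card + finrank ℂ W ≤ m := by
  classical
  obtain ⟨E, hE⟩ : ∃ E, E = Submodule.span ℂ (v '' (S : Set (Fin m))) := ⟨_, rfl⟩
  have h1 : finrank ℂ E = S.card := by
    rw [hE, finrank_span_set_eq_card (v.linearIndependent.linearIndepOn_id.mono
      (Set.image_subset_range _ _)), Set.toFinset_image, Finset.toFinset_coe,
      Finset.card_image_of_injective _ v.injective]
  have h2 : E ⊓ W = ⊥ := by
    rw [eq_bot_iff]
    rintro w ⟨hwE, hwW⟩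
    rw [Submodule.mem_bot]
    apply hW w hwW
    have h3 : ∀ u ∈ E, ∀ u' ∈ E, hf H u u' = 0 := by
      intro u hu u' hu'
      rw [hE] at hu hu'
      induction hu using Submodule.span_induction with
      | mem x hx =>
        obtain ⟨a, ha, rfl⟩ := hx
        induction hu' using Submodule.span_induction with
        | mem y hy =>
          obtain ⟨b, hb, rfl⟩ := hy
          exact hS a ha b hb
        | zero => exact hf_zero_right H _
        | add x y _ _ hx hy => rw [hf_add_right, hx, hy, add_zero]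
        | smul c x _ hx => rw [hf_smul_right, hx, mul_zero]
      | zero => simp [hf]
      | add x y _ _ hx hy => rw [hf_add_left, hx, hy, add_zero]
      | smul c x _ hx => rw [hf_smul_left, hx, mul_zero]
    exact h3 w hwE w hwE
  have h3 := Submodule.finrank_sup_add_finrank_inf_eq E W
  rw [h2, finrank_bot, add_zero, h1] at h3
  rw [← h3]
  refine (Submodule.finrank_le _).trans ?_
  rw [finrank_fintype_fun_eq_card, Fintype.card_fin]

/-- the kernel of a skew operator with real eigenvalues is big -/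
theorem three_le_ker {H : Matrix (Fin m) (Fin m) ℂ} (hH : Unbal H)
    (B : Matrix (Fin m) (Fin m) ℂ) (hBs : ∀ u v, hf H (B *ᵥ u) v + hf H u (B *ᵥ v) = 0)
    (hBd : ∀ v : Fin m → ℂ, v ∈ Submodule.span ℂ {w | ∃ r : ℝ, B *ᵥ w = (r : ℂ) • w}) :
    3 ≤ finrank ℂ (LinearMap.ker B.mulVecLin) := by
  classical
  obtain ⟨-, -, -, -, W, hW, hdef⟩ := hH
  have hW0 : ∀ w ∈ W, hf H w w = 0 → w = 0 := by
    intro w hw h0
    by_contra hw0
    rcases hdef with h | h
    · have := h w hw hw0
      rw [h0] at this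
      exact lt_irrefl _ this
    · have := h w hw hw0
      rw [h0] at this
      exact lt_irrefl _ this
  obtain ⟨v, r, hv⟩ := exists_eigenbasis B hBd
  have horth : ∀ a b, r a + r b ≠ 0 → hf H (v a) (v b) = 0 := by
    intro a b hab
    have h1 := hBs (v a) (v b)
    rw [hv, hv, hf_smul_left, hf_smul_right, Complex.conj_ofReal, ← add_mul] at h1
    rcases mul_eq_zero.mp h1 with h2 | h2
    · exfalso
      apply hab
      exact_mod_cast h2
    · exact h2
  have hpos := card_add_le H v (Finset.univ.filter fun a => 0 < r a) (by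
    intro a ha b hb
    have h1 := (Finset.mem_filter.mp ha).2
    have h2 := (Finset.mem_filter.mp hb).2
    exact horth a b (by positivity)) W hW0
  have hneg := card_add_le H v (Finset.univ.filter fun a => r a < 0) (by
    intro a ha b hb
    have h1 := (Finset.mem_filter.mp ha).2
    have h2 := (Finset.mem_filter.mp hb).2
    exact horth a b (by linarith)) W hW0
  have hzero : (Finset.univ.filter fun a => r a = 0).card ≤
      finrank ℂ (LinearMap.ker B.mulVecLin) := by
    obtain ⟨E, hE⟩ : ∃ E, E = Submodule.span ℂ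
      (v '' ((Finset.univ.filter fun a => r a = 0 : Finset (Fin m)) : Set (Fin m))) := ⟨_, rfl⟩
    have h1 : finrank ℂ E = (Finset.univ.filter fun a => r a = 0).card := by
      rw [hE, finrank_span_set_eq_card (v.linearIndependent.linearIndepOn_id.mono
        (Set.image_subset_range _ _)), Set.toFinset_image, Finset.toFinset_coe,
        Finset.card_image_of_injective _ v.injective]
    rw [← h1]
    apply Submodule.finrank_mono
    rw [hE, Submodule.span_le]
    rintro _ ⟨a, ha, rfl⟩
    have h2 : r a = 0 := by simpa using ha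
    show B *ᵥ v a = 0
    rw [hv, h2, Complex.ofReal_zero, zero_smul]
  have hsum : (Finset.univ.filter fun a => 0 < r a).card +
      (Finset.univ.filter fun a => r a < 0).card + (Finset.univ.filter fun a => r a = 0).card =
      m := by
    rw [← Finset.card_union_of_disjoint, ← Finset.card_union_of_disjoint]
    · have hu : Finset.univ.filter (fun a => 0 < r a) ∪ Finset.univ.filter (fun a => r a < 0) ∪
          Finset.univ.filter (fun a => r a = 0) = Finset.univ := by
        ext a
        simp only [Finset.mem_union, Finset.mem_filter, Finset.mem_univ, true_and, iff_true]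
        rcases lt_trichotomy (r a) 0 with h | h | h
        · exact Or.inl (Or.inr h)
        · exact Or.inr h
        · exact Or.inl (Or.inl h)
      rw [hu, Finset.card_univ, Fintype.card_fin]
    · rw [Finset.disjoint_left]
      intro a ha hb
      simp only [Finset.mem_union, Finset.mem_filter, Finset.mem_univ, true_and] at ha hb
      rcases ha with ha | ha <;> linarith
    · rw [Finset.disjoint_left]
      intro a ha hb
      simp only [Finset.mem_filter, Finset.mem_univ, true_and] at ha hb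
      linarith
  omega

/-- a skew operator with real eigenvalues is traceless -/
theorem trace_zero {H : Matrix (Fin m) (Fin m) ℂ} (hH : Unbal H)
    (B : Matrix (Fin m) (Fin m) ℂ) (hBs : ∀ u v, hf H (B *ᵥ u) v + hf H u (B *ᵥ v) = 0)
    (hBd : ∀ v : Fin m → ℂ, v ∈ Submodule.span ℂ {w | ∃ r : ℝ, B *ᵥ w = (r : ℂ) • w}) :
    B.trace = 0 := by
  classical
  obtain ⟨v, r, hv⟩ := exists_eigenbasis B hBd
  have h1 : B.trace = (∑ a, r a : ℝ) := by
    have h2 : LinearMap.toMatrix v v (Matrix.toLin' B) = Matrix.diagonal fun a => (r a : ℂ) := by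
      ext a b
      rw [LinearMap.toMatrix_apply, Matrix.toLin'_apply, hv, map_smul, Basis.repr_self,
        Matrix.diagonal_apply]
      by_cases h : a = b
      · subst h
        simp
      · simp [h]
    have h3 := LinearMap.trace_eq_matrix_trace ℂ v (Matrix.toLin' B)
    rw [h2, Matrix.trace_toLin'_eq, Matrix.trace_diagonal] at h3
    rw [h3]
    push_cast
    rfl
  -- `Bᴴ H = - H B`
  have h2 : Bᴴ * H = - (H * B) := by
    apply eq_of_hf
    intro u w
    have h3 : hf (Bᴴ * H) u w = hf H (B *ᵥ u) w := by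
      rw [hf, hf, Matrix.star_mulVec, ← Matrix.mulVec_mulVec, Matrix.dotProduct_mulVec (star u) Bᴴ]
    have h4 : hf (-(H * B)) u w = - hf H u (B *ᵥ w) := by
      rw [hf, hf, Matrix.neg_mulVec, dotProduct_neg, ← Matrix.mulVec_mulVec]
    rw [h3, h4]
    exact eq_neg_of_add_eq_zero_left (hBs u w)
  have hinj : Function.Injective H.mulVec := by
    intro u w huw
    have h3 : H *ᵥ (u - w) = 0 := by rw [Matrix.mulVec_sub, huw, sub_self]
    have h4 : u - w = 0 := hH.2.1 _ fun x => by rw [hf, h3, dotProduct_zero]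
    exact sub_eq_zero.mp h4
  have hu : IsUnit H := Matrix.mulVec_injective_iff_isUnit.mp hinj
  obtain ⟨H', hH'⟩ := hu.exists_right_inv
  have h5 : B.trace = - conj B.trace := by
    have h6 : Bᴴ = - (H * B * H') := by
      calc Bᴴ = Bᴴ * H * H' := by rw [Matrix.mul_assoc, hH', Matrix.mul_one]
        _ = _ := by rw [h2, Matrix.neg_mul]
    have h7 : (Bᴴ).trace = - B.trace := by
      rw [h6, Matrix.trace_neg, Matrix.trace_mul_comm, ← Matrix.mul_assoc,
        mul_eq_one_comm.mp hH', Matrix.one_mul]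
    rw [Matrix.trace_conjTranspose] at h7
    have h8 : conj B.trace = - B.trace := h7
    rw [h8, neg_neg]
  rw [h1, Complex.conj_ofReal] at h5
  rw [h1]
  have h6 : ((∑ a, r a : ℝ) : ℂ) + ((∑ a, r a : ℝ) : ℂ) = 0 := by
    linear_combination h5
  have h7 : (∑ a, r a : ℝ) + (∑ a, r a : ℝ) = 0 := by exact_mod_cast h6
  have h8 : (∑ a, r a : ℝ) = 0 := by linarith
  rw [h8, Complex.ofReal_zero]

end Pool.Agent.Ball
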