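import Pool.Agent.Helper8.B.Final2
import Pool.Agent.Helper8.P.Skew
import Pool.Agent.GP.A4
import Pool.Agent.GP.Core2

/-!
The abstract theorem on abelian varieties with a place of prime rank and unbalanced signature.
-/

open scoped ComplexConjugate

namespace Pool.Agent.Ball

open Module Matrix NumberField Pool.Agent.Helper7
open Pool.Agent.Helper8.D (ent ent_apply ent_act ent_mul)
open Pool.Agent.Helper28.GPC (tw isInv_tw entry_tw tw_star tw_snd)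

set_option linter.unusedSectionVars false

section family

variable {I : Type} [Fintype I] [DecidableEq I] (n : I → ℕ)
  {κ : I → Type} [∀ i, Fintype (κ i)] [∀ i, DecidableEq (κ i)] {ϖ : ℂ}
  (P : ∀ i, PData (κ i) ϖ)
  {k : ℕ} (α : MultilinearMap ℂ (fun _ : Fin (2 * k) => HW κ n) ℂ)
  (i : I) {K : Type} [Field K] [NumberField K] {m : ℕ} (F : UF (P i) K m)
  (hϖ : ϖ ≠ 0)
  (hB : ∀ v : Fin (2 * k) → HW κ n, (∀ r, IsRatP n P (v r)) → ∃ q : ℚ, α v = ϖ ^ k * q)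
  (hA : ∀ v : Fin (2 * k) → HW κ n, (∀ r i m j, IsAlgebraic ℚ (v r i m j)) →
      IsAlgebraic ℚ (α v))

include hϖ hB hA in
/-- concentration at a place of prime rank -/
theorem concentratedP (hm : m.Prime) (σ₀ : K →+* ℂ) (hL : Unbal (HG F σ₀))
    (hsep : ∀ τ, τ ≠ σ₀ → τ ≠ ComplexEmbedding.conjugate σ₀ → Sep P i F σ₀ τ) :
    ∃ B : Matrix (Fin m) (Fin m) ℂ, B ∈ cAt n P α i F σ₀ ∧
      (∀ u v, hf (HG F σ₀) (B *ᵥ u) v + hf (HG F σ₀) u (B *ᵥ v) = 0) ∧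
      (∀ v : Fin m → ℂ, v ∈ Submodule.span ℂ {w | ∃ r : ℝ, B *ᵥ w = (r : ℂ) • w}) ∧ B ≠ 0 := by
  classical
  obtain ⟨Y, hY, hY2, hY0, hYs, -⟩ := exists_hyper_at n P α i F σ₀
    (fun W hW hst => Helper98.Ball.M2 n P α i F hϖ hB hA _ W hW hst) hL.1 hL.2.2.1 hL.2.2.2.1
  obtain ⟨hsk, hdg⟩ := hYs σ₀
  have hne : ent F σ₀ (Y.1 i) ≠ 0 := by
    intro h
    apply hY0 0
    rw [h, zero_smul]
  obtain ⟨hZ, hI⟩ := GP.prime_ideal hm (gAt n P α i F σ₀)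
    (gAt_br n P α i F σ₀) (gAt_irr n P α i F hϖ hB hA σ₀)
    (ent F σ₀ (Y.1 i)) ⟨Y, hY, hY2, rfl⟩ (trace_zero hL _ hsk hdg) hne
    (fun v => Submodule.span_mono (by rintro w ⟨r, hr⟩; exact ⟨r, hr⟩) (hdg v))
  have key : ∀ S : Finset (K →+* ℂ), (∀ τ ∈ S, τ ≠ σ₀ ∧ τ ≠ ComplexEmbedding.conjugate σ₀) →
      IsIdl n P α (S.inf fun τ => vanAt P i F τ) ∧
      ent F σ₀ (Y.1 i) ∈ kAt n P α i F (S.inf fun τ => vanAt P i F τ) σ₀ := by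
    intro S
    induction S using Finset.induction_on with
    | empty =>
      intro _
      rw [Finset.inf_empty]
      exact ⟨IsIdl.top n P α, kAt_top n P α i F σ₀ ⟨Y, hY, hY2, rfl⟩⟩
    | insert τ S _ ih =>
      intro h
      obtain ⟨h1, h2⟩ := ih fun τ hτ => h τ (Finset.mem_insert_of_mem hτ)
      obtain ⟨h3, h4⟩ := h τ (Finset.mem_insert_self _ _)
      rw [Finset.inf_insert]
      have h5 := isIdl_vanAt n P α i F hϖ hB τ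
      refine ⟨h5.inf h1, ?_⟩
      refine conc_inf n P α i F σ₀ _ hZ (fun c hc hid _ hns => hI c hc hid hns) h5 h1 ?_ h2
        (kAt_adj n P α i F hϖ hB (h5.inf h1) σ₀)
      exact hI _ (kAt_le n P α i F _ σ₀) (kAt_br n P α i F h5 σ₀)
        (exists_sep n P α i F hϖ hB hA σ₀ τ (hsep τ h3 h4))
  obtain ⟨-, X, hX, hX2, hXJ, hXe⟩ := key (Finset.univ.filter fun τ => τ ≠ σ₀ ∧
    τ ≠ ComplexEmbedding.conjugate σ₀) (fun τ hτ => (Finset.mem_filter.mp hτ).2)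
  refine ⟨ent F σ₀ (Y.1 i), ⟨X, hX, hX2, hXe, fun τ h1 h2 => ?_⟩, hsk, hdg, hne⟩
  have h3 : (Finset.univ.filter fun τ => τ ≠ σ₀ ∧ τ ≠ ComplexEmbedding.conjugate σ₀).inf
      (fun τ => vanAt P i F τ) ≤ vanAt P i F τ :=
    Finset.inf_le (Finset.mem_filter.mpr ⟨Finset.mem_univ _, h1, h2⟩)
  exact (h3 hXJ).1

/-- the traceless matrices of a space of matrices -/
def tl {m : ℕ} (c : Submodule ℂ (Matrix (Fin m) (Fin m) ℂ)) :
    Submodule ℂ (Matrix (Fin m) (Fin m) ℂ) :=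
  c ⊓ LinearMap.ker (Matrix.traceLinearMap (Fin m) ℂ ℂ)

lemma mem_tl {m : ℕ} (c : Submodule ℂ (Matrix (Fin m) (Fin m) ℂ))
    (X : Matrix (Fin m) (Fin m) ℂ) : X ∈ tl c ↔ X ∈ c ∧ X.trace = 0 := Iff.rfl

lemma trace_br {m : ℕ} (X Y : Matrix (Fin m) (Fin m) ℂ) : (X * Y - Y * X).trace = 0 := by
  rw [Matrix.trace_sub, Matrix.trace_mul_comm, sub_self]

include hϖ hB hA in
/-- rotations at a place of prime rank -/
theorem rotP (hm : m.Prime) (h5 : 5 ≤ m) (h7 : m ≠ 7) (σ₀ : K →+* ℂ) (hL : Unbal (HG F σ₀))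
    (hsep : ∀ τ, τ ≠ σ₀ → τ ≠ ComplexEmbedding.conjugate σ₀ → Sep P i F σ₀ τ) :
    ∃ U V : Matrix (Fin m) (Fin m) ℂ, U * V = 1 ∧ V * U = 1 ∧
      ∀ a b, U * rot a b * V ∈ cAt n P α i F σ₀ := by
  obtain ⟨B, hBc, hBs, hBd, hB0⟩ := concentratedP n P α i F hϖ hB hA hm σ₀ hL hsep
  have hBt := trace_zero hL B hBs hBd
  have hBd' : ∀ v : Fin m → ℂ, v ∈ Submodule.span ℂ {w | ∃ r : ℂ, B *ᵥ w = r • w} :=
    fun v => Submodule.span_mono (by rintro w ⟨r, hr⟩; exact ⟨r, hr⟩) (hBd v)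
  have hns : ∃ X ∈ tl (cAt n P α i F σ₀), ∀ a : ℂ, X ≠ a • 1 := by
    refine ⟨B, ⟨hBc, hBt⟩, fun a ha => hB0 ?_⟩
    have h1 := hBt
    rw [ha, Matrix.trace_smul, Matrix.trace_one, Fintype.card_fin, smul_eq_mul] at h1
    rcases mul_eq_zero.mp h1 with h2 | h2
    · rw [ha, h2, zero_smul]
    · exact absurd h2 (Nat.cast_ne_zero.mpr hm.pos.ne')
  have hid : ∀ X ∈ gAt n P α i F σ₀, ∀ Y ∈ tl (cAt n P α i F σ₀),
      X * Y - Y * X ∈ tl (cAt n P α i F σ₀) := fun X hX Y hY =>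
    ⟨cAt_br n P α i F σ₀ X hX Y hY.1, trace_br X Y⟩
  have hle : tl (cAt n P α i F σ₀) ≤ gAt n P α i F σ₀ :=
    inf_le_left.trans (cAt_le n P α i F σ₀)
  obtain ⟨U, V, h1, h2, h3⟩ := GP.prime_core hm h5 h7 (tl (cAt n P α i F σ₀))
    (fun X hX Y hY => hid X (hle hX) Y hY) (fun X hX => hX.2)
    (GP.ideal_irr hm (gAt n P α i F σ₀) _ (gAt_br n P α i F σ₀)
      (gAt_irr n P α i F hϖ hB hA σ₀) hle hid hns) B ⟨hBc, hBt⟩ hB0 hBd'
    ((by norm_num : 2 ≤ 3).trans (three_le_ker hL B hBs hBd))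
  exact ⟨U, V, h1, h2, fun a b => (h3 a b).1⟩

end family

section final

variable {κ : Type} [Fintype κ] [DecidableEq κ]
    (P : PData κ (2 * Real.pi * Complex.I)) {K : Type} [Field K] [NumberField K] {m : ℕ}
    (F : UF P K m) {k : ℕ}
    (α : (HW (fun _ : Unit => κ) (fun _ => 1)) [⋀^Fin (2 * k)]→ₗ[ℂ] ℂ)

/-- rotations at all places -/
theorem all_rotP (hm : m.Prime) (h5 : 5 ≤ m) (h7 : m ≠ 7) (σ₀ : K →+* ℂ) (hL : Unbal (HG F σ₀))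
    (hsep : ∀ τ, τ ≠ σ₀ → τ ≠ ComplexEmbedding.conjugate σ₀ →
      Sep (fun _ : Unit => P) () F σ₀ τ)
    (hB : ∀ v : Fin (2 * k) → HW (fun _ : Unit => κ) (fun _ => 1),
      (∀ r, IsRatP (fun _ => 1) (fun _ : Unit => P) (v r)) →
      ∃ q : ℚ, α v = (2 * Real.pi * Complex.I) ^ k * q)
    (hA : ∀ v : Fin (2 * k) → HW (fun _ : Unit => κ) (fun _ => 1),
      (∀ r i m j, IsAlgebraic ℚ (v r i m j)) → IsAlgebraic ℚ (α v))
    (σ : K →+* ℂ) : HasRot P F α σ := by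
  have hϖ : (2 * Real.pi * Complex.I : ℂ) ≠ 0 := Complex.two_pi_I_ne_zero
  obtain ⟨a, ha⟩ : ∃ a, a = (α : MultilinearMap ℂ
    (fun _ : Fin (2 * k) => HW (fun _ : Unit => κ) (fun _ => 1)) ℂ) := ⟨_, rfl⟩
  have hB' : ∀ v : Fin (2 * k) → HW (fun _ : Unit => κ) (fun _ => 1),
      (∀ r, IsRatP (fun _ => 1) (fun _ : Unit => P) (v r)) →
      ∃ q : ℚ, a v = (2 * Real.pi * Complex.I) ^ k * q := by rw [ha]; exact hB
  have hA' : ∀ v : Fin (2 * k) → HW (fun _ : Unit => κ) (fun _ => 1),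
      (∀ r i m j, IsAlgebraic ℚ (v r i m j)) → IsAlgebraic ℚ (a v) := by rw [ha]; exact hA
  obtain ⟨U, V, h1, h2, h3⟩ := rotP (fun _ => 1) (fun _ : Unit => P) a () F hϖ hB' hA'
    hm h5 h7 σ₀ hL hsep
  obtain ⟨τ, hτ⟩ := Helper84.exists_aut σ₀ σ
  refine ⟨U.map τ, V.map τ, ?_, ?_, fun i j => ?_⟩
  · rw [← Matrix.map_mul, h1]
    ext a b
    rw [Matrix.map_apply, Matrix.one_apply]
    split_ifs <;> simp
  · rw [← Matrix.map_mul, h2]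
    ext a b
    rw [Matrix.map_apply, Matrix.one_apply]
    split_ifs <;> simp
  · have h4 := cAt_tw (fun _ => 1) (fun _ : Unit => P) a () F hϖ hB' τ σ₀ _ (h3 i j)
    rw [Matrix.map_mul, Matrix.map_mul, rot_map, hτ] at h4
    obtain ⟨X, hX, hX2, hX3, hX4⟩ := h4
    rw [ha] at hX
    exact ⟨X, hX, hX2, hX3, hX4⟩

theorem abstract_prime (hm : m.Prime) (h5 : 5 ≤ m) (h7 : m ≠ 7) (σ₀ : K →+* ℂ)
    (hc : NumberField.ComplexEmbedding.conjugate σ₀ ≠ σ₀) (hL : Unbal (HG F σ₀))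
    (hsep : ∀ τ, τ ≠ σ₀ → τ ≠ NumberField.ComplexEmbedding.conjugate σ₀ →
      ∃ g : ℂ ≃+* ℂ, (∃ v, 0 < (hf (HG F ((g : ℂ →+* ℂ).comp σ₀)) v v).re) ∧
        (∃ v, (hf (HG F ((g : ℂ →+* ℂ).comp σ₀)) v v).re < 0) ∧
        Definite (HG F ((g : ℂ →+* ℂ).comp τ)))
    (hB : ∀ v : Fin (2 * k) → HW (fun _ : Unit => κ) (fun _ => 1),
      (∀ r, IsRatP (fun _ => 1) (fun _ : Unit => P) (v r)) →
      ∃ q : ℚ, α v = (2 * Real.pi * Complex.I) ^ k * q)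
    (hA : ∀ v : Fin (2 * k) → HW (fun _ : Unit => κ) (fun _ => 1),
      (∀ r i m j, IsAlgebraic ℚ (v r i m j)) → IsAlgebraic ℚ (α v))
    (hk : 2 * k < detDeg m ∨ Fintype.card κ < 2 * k + detDeg m) :
    α ∈ Submodule.span ℚ {ω | ∃ γ : Fin k → (HW (fun _ : Unit => κ) (fun _ => 1) →ₗ[ℂ]
        HW (fun _ : Unit => κ) (fun _ => 1) →ₗ[ℂ] ℂ),
      (∀ a, γ a ∈ GW (fun _ => 1) (fun _ : Unit => P)) ∧ ω = wedge γ} :=
  M9a P F α Complex.two_pi_I_ne_zero (fun σ => all_complex P F σ₀ hc σ) hB hA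
    (all_rotP P F α hm h5 h7 σ₀ hL (fun τ h1 h2 => by
      obtain ⟨g, h3, h4, h5⟩ := hsep τ h1 h2
      exact ⟨g, HG_isHermitian F _, h3, h4, h5⟩) hB hA) hk

end final

end Pool.Agent.Ball
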