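import Pool.Agent.Helper8.P.Types
import Pool.Agent.Helper8.P.Final
import Pool.Agent.Helper8.B.Main2

/-!
Grothendieck classes on abelian varieties with a separated place of prime rank and unbalanced
multiplicities.
-/

open scoped ComplexConjugate

namespace Pool.Agent.Ball

open Module NumberField Matrix Pool.Agent.GPC Pool.Agent.Helper7
open Pool.Agent.Helper39.AF Pool.Agent.Helper71.AF
open Pool.Agent.Helper83.Ball (vec conj_conj' cB_vec hf_HG vec_eq_zero proj_vec exists_vec rho_vec
  HG_herm isEnd_rho pos_fil neg_conj definite_of_pure lorentz_of_one one isIsogeny_one hf_nondeg)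

section av

variable {A : AbVar} {K : Type} [Field K] [NumberField K] {m : ℕ} (F : UF (pData A) K m)

lemma vec_add (σ : K →+* ℂ) (v w : Fin m → ℂ) : vec F σ (v + w) = vec F σ v + vec F σ w := by
  unfold Pool.Agent.Helper83.Ball.vec
  rw [← Finset.sum_add_distrib]
  refine Finset.sum_congr rfl fun a _ => ?_
  rw [Pi.add_apply, add_smul]

lemma vec_smul (σ : K →+* ℂ) (c : ℂ) (v : Fin m → ℂ) : vec F σ (c • v) = c • vec F σ v := by
  unfold Pool.Agent.Helper83.Ball.vec
  rw [Finset.smul_sum]
  refine Finset.sum_congr rfl fun a _ => ?_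
  rw [Pi.smul_apply, smul_eq_mul, mul_smul]

/-- the part in the Hodge filtration -/
noncomputable def posPart (σ : K →+* ℂ) : Submodule ℂ (Fin m → ℂ) where
  carrier := {w | A.IsFil (vec F σ w)}
  zero_mem' := by
    show A.IsFil (vec F σ 0)
    rw [Pool.Agent.Helper83.Ball.vec_zero]
    exact fil_zero A
  add_mem' {v w} hv hw := by
    show A.IsFil (vec F σ (v + w))
    rw [vec_add]
    exact fil_add A hv hw
  smul_mem' c v hv := by
    show A.IsFil (vec F σ (c • v))
    rw [vec_smul]
    exact fil_smul A c hv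

lemma finrank_posPart (ρ : K → A.H1 → A.H1) (hρ : ∀ x v, F.ρ x v = ρ x v) (σ : K →+* ℂ) :
    finrank ℂ (posPart F σ) = finrank ℂ (A.eigenFil ρ σ) := by
  let f : (Fin m → ℂ) →ₗ[ℂ] A.H1 :=
    { toFun := vec F σ
      map_add' := vec_add F σ
      map_smul' := vec_smul F σ }
  have hf : Function.Injective f := by
    rw [injective_iff_map_eq_zero]
    intro v hv
    exact vec_eq_zero F σ v hv
  have h1 : (posPart F σ).map f = A.eigenFil ρ σ := by
    apply le_antisymm
    · rintro _ ⟨w, hw, rfl⟩
      refine Submodule.subset_span ⟨fun x => ?_, hw⟩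
      show ρ x (vec F σ w) = σ x • vec F σ w
      rw [← hρ, rho_vec]
    · rw [AbVar.eigenFil, Submodule.span_le]
      rintro v ⟨hv, hvF⟩
      obtain ⟨w, hw⟩ := exists_vec F σ v (Pool.Agent.Helper83.Ball.proj_of_eigen F σ v fun x => by
        rw [hρ]; exact hv x)
      refine ⟨w, ?_, hw.symm⟩
      show A.IsFil (vec F σ w)
      rw [← hw]
      exact hvF
  rw [← h1]
  exact (LinearEquiv.finrank_eq ((posPart F σ).equivMapOfInjective f hf))

/-- the orthogonal complement of the part in the Hodge filtration -/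
noncomputable def negPart (σ : K →+* ℂ) : Submodule ℂ (Fin m → ℂ) where
  carrier := {w | ∀ p ∈ posPart F σ, hf (HG F σ) p w = 0}
  zero_mem' p _ := hf_zero_right _ _
  add_mem' {v w} hv hw p hp := by rw [hf_add_right, hv p hp, hw p hp, add_zero]
  smul_mem' c v hv p hp := by rw [hf_smul_right, hv p hp, mul_zero]

lemma neg_negPart (σ : K →+* ℂ) (w : Fin m → ℂ) (hw : w ∈ negPart F σ) (hw0 : w ≠ 0) :
    (hf (HG F σ) w w).re < 0 := by
  obtain ⟨u, u', hu, hu', hp, hp', huu⟩ := Pool.Agent.Helper83.Ball.decomp F σ w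
  obtain ⟨p, hpu⟩ := exists_vec F σ u hp
  have hpP : p ∈ posPart F σ := by
    show A.IsFil (vec F σ p)
    rw [← hpu]
    exact hu
  have h1 := hw p hpP
  have h2 : hf (HG F σ) p w = hf (HG F σ) p p := by
    rw [hf_HG, hf_HG, huu, ← hpu, map_add]
    have h3 : (pData A).ψ (cB (pData A) u) (cB (pData A) u') = 0 := by
      rw [Pool.Agent.Helper7.psi_cB, fil_isotropic A hu hu']
      simp
    rw [h3, add_zero]
  rw [h2] at h1
  have hp0 : p = 0 := by
    by_contra hne
    have := pos_fil F σ p hne hpP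
    rw [h1] at this
    exact lt_irrefl _ this
  rw [hpu, hp0, Pool.Agent.Helper83.Ball.vec_zero, zero_add] at huu
  exact neg_conj F σ w hw0 u' hu' huu

lemma finrank_negPart (σ : K →+* ℂ) : m ≤ finrank ℂ (posPart F σ) + finrank ℂ (negPart F σ) := by
  classical
  obtain ⟨d, hd⟩ : ∃ d, d = finrank ℂ (posPart F σ) := ⟨_, rfl⟩
  let b : Basis (Fin (finrank ℂ (posPart F σ))) ℂ (posPart F σ) := finBasis ℂ _
  let f : (Fin m → ℂ) →ₗ[ℂ] (Fin (finrank ℂ (posPart F σ)) → ℂ) :=
    { toFun := fun w i => hf (HG F σ) (b i : Fin m → ℂ) w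
      map_add' := fun v w => by funext i; exact hf_add_right _ _ _ _
      map_smul' := fun c v => by funext i; exact hf_smul_right _ _ _ _ }
  have h1 : LinearMap.ker f = negPart F σ := by
    ext w
    rw [LinearMap.mem_ker]
    constructor
    · intro hw p hp
      have h2 : p = ∑ i, b.repr ⟨p, hp⟩ i • (b i : Fin m → ℂ) := by
        have h3 := congrArg (Subtype.val) (b.sum_repr ⟨p, hp⟩)
        rw [Submodule.coe_sum] at h3
        exact h3.symm
      rw [h2, hf_sum_left]
      refine Finset.sum_eq_zero fun i _ => ?_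
      rw [hf_smul_left]
      have h3 := congrFun hw i
      have h4 : hf (HG F σ) (b i : Fin m → ℂ) w = 0 := h3
      rw [h4, mul_zero]
    · intro hw
      funext i
      exact hw _ (b i).2
  have h2 := LinearMap.finrank_range_add_finrank_ker f
  rw [h1, finrank_fintype_fun_eq_card, Fintype.card_fin] at h2
  have h3 := Submodule.finrank_le (LinearMap.range f)
  rw [finrank_fintype_fun_eq_card, Fintype.card_fin] at h3
  omega

/-- the Hermitian form at a place with unbalanced multiplicities -/
theorem unbal_of (ρ : K → A.H1 → A.H1) (hρ : ∀ x v, F.ρ x v = ρ x v) (σ : K →+* ℂ) (q : ℕ)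
    (hq : finrank ℂ (A.eigenFil ρ σ) = q) (h1 : 1 ≤ q) (h2 : 2 * q + 3 ≤ m) :
    Unbal (HG F σ) := by
  have h3 := finrank_posPart F ρ hρ σ
  have h4 := finrank_negPart F σ
  rw [h3, hq] at h4
  refine ⟨HG_herm F σ, hf_nondeg F σ, ?_, ?_, negPart F σ, by omega,
    Or.inr fun w hw hw0 => neg_negPart F σ w hw hw0⟩
  · have h5 : posPart F σ ≠ ⊥ := by
      intro h
      rw [h, finrank_bot, hq] at h3
      omega
    obtain ⟨v, hv, hv0⟩ := Submodule.exists_mem_ne_zero_of_ne_bot h5
    exact ⟨v, pos_fil F σ v hv0 hv⟩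
  · have h5 : negPart F σ ≠ ⊥ := by
      intro h
      rw [h, finrank_bot] at h4
      omega
    obtain ⟨v, hv, hv0⟩ := Submodule.exists_mem_ne_zero_of_ne_bot h5
    exact ⟨v, neg_negPart F σ v hv hv0⟩

end av

theorem nonempty_UFP (A : AbVar) (K : Type) [Field K] [NumberField K] [IsCMField K] (m q : ℕ)
    (ρ : K → A.H1 → A.H1) (C : A.IsMultSep K m q ρ) :
    ∃ F : UF (pData A) K m, ∀ x v, F.ρ x v = ρ x v := by
  obtain ⟨R, hR⟩ : ∃ R : K →+* Module.End ℂ A.H1, ∀ x v, R x v = ρ x v :=
    ⟨{  toFun := fun x => IsLinearMap.mk' _ (C.endo x).linear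
        map_one' := LinearMap.ext C.one
        map_mul' := fun x y => LinearMap.ext (C.mul x y)
        map_add' := fun x y => LinearMap.ext (C.add x y)
        map_zero' := LinearMap.ext fun v => by
          have h := C.add 0 0 v
          rw [add_zero] at h
          have h2 : ρ 0 v = 0 := by
            have h3 := congrArg (fun w => w - ρ 0 v) h
            simp only [sub_self, add_sub_cancel_right] at h3
            exact h3.symm
          exact h2 }, fun x v => rfl⟩
  have hE : ∀ x, A.IsEnd (R x) := by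
    intro x
    have h1 : (fun v => R x v) = ρ x := funext (hR x)
    have h2 := C.endo x
    rw [← h1] at h2
    exact h2
  have hQ : ∀ x, ∀ v ∈ (pData A).Q, R x v ∈ (pData A).Q :=
    fun x v hv => (isDRB_of_isEnd A _ (hE x)).rat v hv
  obtain ⟨lam, h1, h2, eb, h3⟩ := exists_Kbasis (pData A) R hQ m
    (by rw [card_index, mul_comm, C.rank])
  exact ⟨{  ρ := R
            hρ := fun x => isDRB_of_isEnd A _ (hE x)
            cc := cmConj K
            hcc := fun σ x => IsCMField.complexEmbedding_complexConj K σ x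
            hros := fun x u v => by rw [hR, hR]; exact C.rosati x u v
            hcen := fun f hf hc => by
              obtain ⟨x, hx⟩ := C.centralizer f (isEnd_of_isDRB A f hf) fun x v => by
                rw [← hR, ← hR]; exact hc x v
              exact ⟨x, fun v => by rw [hR]; exact hx v⟩
            hnd := hnd_pData A
            lam := lam
            lam_rat := h1
            gen := h2
            eb := eb
            heb := h3 }, hR⟩

lemma detDeg_eq (m : ℕ) : detDeg m = if Even m then m else 2 * m := rfl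

/-- Grothendieck classes on abelian varieties with complex multiplication by `K` of prime rank `m`
and multiplicity `q`, `1 ≤ q ≤ (m - 3) / 2`, at a separated place are divisorial, below the degree
of the determinants and in the complementary range. -/
theorem main_primeP (A : AbVar) (K : Type) [Field K] [NumberField K] [IsCMField K] (m q : ℕ)
    (ρ : K → A.H1 → A.H1) (C : A.IsMultSep K m q ρ) (hm : m.Prime) (h7 : m ≠ 7) (hq : 1 ≤ q)
    (hqm : 2 * q + 3 ≤ m) (k : ℕ)
    (hk : 2 * k < 2 * m ∨ 2 * A.g < 2 * k + 2 * m) (α : A.Class (2 * k)) :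
    A.IsGrothendieckClass k α ↔ A.IsDivisorialClass k α := by
  refine ⟨fun hα => ?_, fun h => grothendieck_of_divisorial h⟩
  obtain ⟨F, hF⟩ := nonempty_UFP A K m q ρ C
  obtain ⟨σ₁, hs1, hs2⟩ := C.signature
  have hL := unbal_of F ρ hF σ₁ q hs1 hq hqm
  have hc : ComplexEmbedding.conjugate σ₁ ≠ σ₁ := fun h =>
    IsTotallyComplex.complexEmbedding_not_isReal σ₁ (ComplexEmbedding.isReal_iff.mpr h)
  have hsep : ∀ τ, τ ≠ σ₁ → τ ≠ ComplexEmbedding.conjugate σ₁ →
      ∃ g : ℂ ≃+* ℂ,
        (∃ v, 0 < (hf (HG F ((g : ℂ →+* ℂ).comp σ₁)) v v).re) ∧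
        (∃ v, (hf (HG F ((g : ℂ →+* ℂ).comp σ₁)) v v).re < 0) ∧
        Definite (HG F ((g : ℂ →+* ℂ).comp τ)) := by
    intro τ h1 h2
    obtain ⟨g, h3, h4⟩ := hs2 τ h1 h2
    obtain ⟨hv, hw⟩ := indef_of_not_pure F ρ hF _ h3
    exact ⟨g, hv, hw, definite_of_pure F ρ hF _ h4⟩
  have hodd : ¬ Even m := by
    rw [Nat.not_even_iff_odd]
    rcases hm.eq_two_or_odd' with h | h
    · omega
    · exact h
  have hiso := isIsogeny_one A
  have hG := grothendieck_transfer hiso α hα
  set β : Form (fun _ : Unit => A) (fun _ => 1) (2 * k) :=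
    α.compLinearMap (one A).symm.toLinearMap with hβ
  have h1 := abstract_prime (pData A) F β hm (by omega) h7 _ hc hL hsep (fun v hv => hG.2 v
    fun r i j => (mem_pData_Q _ _).mp (hv r i j)) hG.1 (by
      rw [card_index, detDeg_eq, if_neg hodd]; exact hk)
  have h2 := isDivisorial_of_span (fun _ : Unit => A) (fun _ => 1) k β h1
  have h3 := divisorial_transfer hiso (ι := fun _ => id)
    (fun _ => ⟨⟨⟨fun _ _ => rfl, fun _ _ => rfl⟩, fun _ h => h, fun _ h => h, fun _ h => h⟩,
      fun _ _ => rfl⟩) β h2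
  have h4 : β.compLinearMap (one A).toLinearMap = α := by
    ext v
    rfl
  rwa [h4] at h3

end Pool.Agent.Ball
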