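import Pool.Agent.GP.C0

/-!
The chain together with the triples (a variant of `exists_chain`, same proof).
-/

namespace Pool.Agent.GP

open Module

section lie

open LieAlgebra LieAlgebra.IsKilling

variable {L : Type*} [LieRing L] [LieAlgebra ℂ L] [FiniteDimensional ℂ L] [IsKilling ℂ L]
  (H : LieSubalgebra ℂ L) [H.IsCartanSubalgebra]
  (V : Type*) [AddCommGroup V] [Module ℂ V] [FiniteDimensional ℂ V]
  [LieRingModule L V] [LieModule ℂ L V]

/-- the chain, with the triples -/
theorem exists_chain2 [Nontrivial L] (b : (rootSystem H).Base) (n : ℕ)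
    (v : Basis (Fin (n + 1)) ℂ V) (wt : Fin (n + 1) → Dual ℂ H)
    (hv : ∀ a, v a ∈ WS H V (wt a))
    (hlev : ∀ k : Fin (n + 1), (wt 0 - wt k) (rho b.flip) = ((k : ℕ) : ℂ))
    (hN : wt 0 ((2 : ℂ) • rho b.flip) = n) :
    ∃ (T : Trip H) (MC : MatChain n b.support (LM V (L := L) v)), (∀ k (hk : k < n),
      wt ⟨k, by omega⟩ - wt ⟨k + 1, by omega⟩ = (rootSystem H).root (MC.i k)) ∧
      (∀ (j : b.support) (a d : Fin (n + 1)), (a.val = d.val + 1 ∧ MC.i d.val = j →
        LinearMap.toMatrix v v (LieModule.toEnd ℂ L V (T.f j.1)) a d = MC.φ d.val) ∧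
        (¬ (a.val = d.val + 1 ∧ MC.i d.val = j) →
        LinearMap.toMatrix v v (LieModule.toEnd ℂ L V (T.f j.1)) a d = 0)) ∧
      (∀ (j : b.support) (a d : Fin (n + 1)), (d.val = a.val + 1 ∧ MC.i a.val = j →
        LinearMap.toMatrix v v (LieModule.toEnd ℂ L V (T.e j.1)) a d = MC.ε a.val) ∧
        (¬ (d.val = a.val + 1 ∧ MC.i a.val = j) →
        LinearMap.toMatrix v v (LieModule.toEnd ℂ L V (T.e j.1)) a d = 0)) := by
  classical
  obtain ⟨T⟩ := nonempty_trip H
  obtain ⟨hF, hE⟩ := C0_ops b n T v wt hv hlev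
  have hstep := C0_step b n T v wt hv hlev hN
  obtain ⟨c, hc⟩ := Trip.principal T b
  have hne : Nonempty b.support := by
    by_contra h
    have h0 : b.support = ∅ := by
      rw [Finset.eq_empty_iff_forall_notMem]
      intro x hx
      exact h ⟨⟨x, hx⟩⟩
    have h1 := hc.lie_e_f
    rw [h0, Finset.sum_empty, Finset.sum_empty, lie_zero] at h1
    exact hc.h_ne_zero h1.symm
  -- coefficients
  let fc : b.support → ℕ → ℂ := fun j k => if h : k < n then
    v.repr ⁅T.f j, v ⟨k, by omega⟩⁆ ⟨k + 1, by omega⟩ else 0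
  let ec : b.support → ℕ → ℂ := fun j k => if h : k < n then
    v.repr ⁅T.e j, v ⟨k + 1, by omega⟩⁆ ⟨k, by omega⟩ else 0
  have fc_eq : ∀ (j : b.support) (k : ℕ) (h : k < n),
      fc j k = v.repr ⁅T.f j, v ⟨k, by omega⟩⁆ ⟨k + 1, by omega⟩ := fun j k h => dif_pos h
  have ec_eq : ∀ (j : b.support) (k : ℕ) (h : k < n),
      ec j k = v.repr ⁅T.e j, v ⟨k + 1, by omega⟩⁆ ⟨k, by omega⟩ := fun j k h => dif_pos h
  have fc_ge : ∀ (j : b.support) (k : ℕ), ¬ k < n → fc j k = 0 := fun j k h => dif_neg h
  have hstep' : ∀ k : ℕ, ∃ j : b.support, k < n → fc j k ≠ 0 ∧ ec j k ≠ 0 := by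
    intro k
    by_cases hk : k < n
    · obtain ⟨j, hj, h1, h2⟩ := hstep k hk
      refine ⟨⟨j, hj⟩, fun _ => ⟨?_, ?_⟩⟩
      · rw [fc_eq _ _ hk]; exact h1
      · rw [ec_eq _ _ hk]; exact h2
    · exact ⟨hne.some, fun h => absurd h hk⟩
  choose I hI using hstep'
  have hroot : ∀ (j : b.support) (k : ℕ) (hk : k < n), fc j k ≠ 0 →
      wt ⟨k, by omega⟩ - wt ⟨k + 1, by omega⟩ = (rootSystem H).root j := by
    intro j k hk h
    rw [fc_eq _ _ hk] at h
    exact (hF j j.2 _ _ h).2
  have hrootE : ∀ (j : b.support) (k : ℕ) (hk : k < n), ec j k ≠ 0 →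
      wt ⟨k, by omega⟩ - wt ⟨k + 1, by omega⟩ = (rootSystem H).root j := by
    intro j k hk h
    rw [ec_eq _ _ hk] at h
    exact (hE j j.2 _ _ h).2
  have hinj : ∀ j l : b.support, (rootSystem H).root j = (rootSystem H).root l → j = l := by
    intro j l h
    exact Subtype.ext ((rootSystem H).root.injective h)
  have fc_ne : ∀ (j : b.support) (k : ℕ), j ≠ I k → fc j k = 0 := by
    intro j k h
    by_cases hk : k < n
    · by_contra h'
      exact h (hinj _ _ ((hroot j k hk h').symm.trans (hroot (I k) k hk (hI k hk).1)))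
    · exact fc_ge j k hk
  -- the operators on the basis
  have hfv : ∀ (j : b.support) (k : ℕ) (hk : k < n), ⁅T.f j, v ⟨k, by omega⟩⁆ =
      fc j k • v ⟨k + 1, by omega⟩ := by
    intro j k hk
    conv_lhs => rw [← v.sum_repr ⁅T.f j, v ⟨k, by omega⟩⁆]
    rw [Finset.sum_eq_single_of_mem (⟨k + 1, by omega⟩ : Fin (n + 1)) (Finset.mem_univ _),
      fc_eq _ _ hk]
    intro a _ ha
    by_contra h
    have h' : v.repr ⁅T.f j, v ⟨k, by omega⟩⁆ a ≠ 0 := by
      intro h''
      rw [h'', zero_smul] at h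
      exact h rfl
    exact ha (Fin.ext (hF j j.2 _ _ h').1)
  have hfvn : ∀ (j : b.support), ⁅T.f j, v ⟨n, by omega⟩⁆ = 0 := by
    intro j
    rw [← v.sum_repr ⁅T.f j, v ⟨n, by omega⟩⁆]
    apply Finset.sum_eq_zero
    intro a _
    by_contra h
    have h' : v.repr ⁅T.f j, v ⟨n, by omega⟩⁆ a ≠ 0 := by
      intro h''
      rw [h'', zero_smul] at h
      exact h rfl
    have h1 : a.val = n + 1 := (hF j j.2 _ _ h').1
    have := a.2
    omega
  have hev : ∀ (j : b.support) (k : ℕ) (hk : k < n), ⁅T.e j, v ⟨k + 1, by omega⟩⁆ =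
      ec j k • v ⟨k, by omega⟩ := by
    intro j k hk
    conv_lhs => rw [← v.sum_repr ⁅T.e j, v ⟨k + 1, by omega⟩⁆]
    rw [Finset.sum_eq_single_of_mem (⟨k, by omega⟩ : Fin (n + 1)) (Finset.mem_univ _),
      ec_eq _ _ hk]
    intro a _ ha
    by_contra h
    have h' : v.repr ⁅T.e j, v ⟨k + 1, by omega⟩⁆ a ≠ 0 := by
      intro h''
      rw [h'', zero_smul] at h
      exact h rfl
    have := (hE j j.2 _ _ h').1
    exact ha (Fin.ext (by simpa using this.symm))
  have hev0 : ∀ (j : b.support), ⁅T.e j, v ⟨0, by omega⟩⁆ = 0 := by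
    intro j
    rw [← v.sum_repr ⁅T.e j, v ⟨0, by omega⟩⁆]
    apply Finset.sum_eq_zero
    intro a _
    by_contra h
    have h' : v.repr ⁅T.e j, v ⟨0, by omega⟩⁆ a ≠ 0 := by
      intro h''
      rw [h'', zero_smul] at h
      exact h rfl
    have h1 : 0 = a.val + 1 := (hE j j.2 _ _ h').1
    omega
  -- the products
  let pr : b.support → ℕ → ℂ := fun j k => fc j k * ec j k
  have pr_ge : ∀ (j : b.support) (k : ℕ), ¬ k < n → pr j k = 0 := by
    intro j k h
    show fc j k * ec j k = 0
    rw [fc_ge j k h, zero_mul]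
  have pr_ne : ∀ (j : b.support) (k : ℕ), j ≠ I k → pr j k = 0 := by
    intro j k h
    show fc j k * ec j k = 0
    rw [fc_ne j k h, zero_mul]
  have hef : ∀ (j : b.support) (k : ℕ) (hk : k < n + 1),
      ⁅T.e j, ⁅T.f j, v ⟨k, hk⟩⁆⁆ = pr j k • v ⟨k, hk⟩ := by
    intro j k hk
    by_cases h : k < n
    · rw [hfv j k h, lie_smul, hev j k h, smul_smul]
    · have hkn : k = n := by omega
      subst hkn
      rw [hfvn, lie_zero, pr_ge j k h, zero_smul]
  have hfe : ∀ (j : b.support) (k : ℕ) (hk : k < n),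
      ⁅T.f j, ⁅T.e j, v ⟨k + 1, by omega⟩⁆⁆ = pr j k • v ⟨k + 1, by omega⟩ := by
    intro j k hk
    rw [hev j k hk, lie_smul, hfv j k hk, smul_smul, mul_comm]
  have hrel0 : ∀ j : b.support, wt ⟨0, by omega⟩ (coroot j.1.1) = pr j 0 := by
    intro j
    have h1 := hv ⟨0, by omega⟩ (coroot j.1.1)
    rw [← T.hef j.1, lie_lie, hef j 0 (by omega), hev0, lie_zero, sub_zero] at h1
    have h2 := sub_eq_zero.2 h1
    rw [← sub_smul] at h2
    rcases smul_eq_zero.1 h2 with h3 | h3
    · exact (sub_eq_zero.1 h3).symm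
    · exact absurd h3 (v.ne_zero _)
  have hrel1 : ∀ (j : b.support) (k : ℕ) (hk : k < n),
      wt ⟨k + 1, by omega⟩ (coroot j.1.1) = pr j (k + 1) - pr j k := by
    intro j k hk
    have h1 := hv ⟨k + 1, by omega⟩ (coroot j.1.1)
    rw [← T.hef j.1, lie_lie, hef j (k + 1) (by omega), hfe j k hk, ← sub_smul] at h1
    have h2 := sub_eq_zero.2 h1
    rw [← sub_smul] at h2
    rcases smul_eq_zero.1 h2 with h3 | h3
    · exact (sub_eq_zero.1 h3).symm
    · exact absurd h3 (v.ne_zero _)
  -- the integers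
  have hint : ∀ (j : b.support) (k : ℕ), ∃ z : ℤ, ∀ h : k < n + 1,
      wt ⟨k, h⟩ (coroot j.1.1) = z := by
    intro j k
    by_cases h : k < n + 1
    · obtain ⟨z, hz⟩ := sl2_int (T.isSl2 j.1) _ _ (v.ne_zero ⟨k, h⟩)
        (hv ⟨k, h⟩ (coroot j.1.1))
      exact ⟨z, fun _ => hz⟩
    · exact ⟨0, fun h' => absurd h' h⟩
  choose X hX using hint
  have hA : ∀ j l : b.support, (((rootSystem H).pairingIn ℤ l.1 j.1 : ℤ) : ℂ) =
      (rootSystem H).root l (coroot j.1.1) := by
    intro j l
    have := (rootSystem H).algebraMap_pairingIn ℤ l.1 j.1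
    rw [rootSystem_pairing_apply] at this
    exact this
  have hX0 : ∀ j : b.support, (X j 0 : ℂ) = pr j 0 := by
    intro j
    rw [← hX j 0 (by omega)]
    exact hrel0 j
  have hX1 : ∀ (j : b.support) (k : ℕ), k < n → (X j (k + 1) : ℂ) = pr j (k + 1) - pr j k := by
    intro j k hk
    rw [← hX j (k + 1) (by omega)]
    exact hrel1 j k hk
  have hXp : ∀ (j : b.support) (k : ℕ), k ≤ n → (k = 0 ∨ I (k - 1) ≠ j) →
      (X j k : ℂ) = pr j k := by
    intro j k hk h
    rcases Nat.eq_zero_or_pos k with h0 | h0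
    · subst h0
      exact hX0 j
    · obtain ⟨k', rfl⟩ : ∃ k', k = k' + 1 := ⟨k - 1, by omega⟩
      rw [hX1 j k' (by omega)]
      rcases h with h | h
      · omega
      · rw [Nat.add_sub_cancel] at h
        rw [pr_ne j k' (Ne.symm h), sub_zero]
  have hXs : ∀ (j : b.support) (k : ℕ), k < n →
      X j (k + 1) = X j k - (rootSystem H).pairingIn ℤ (I k).1 j.1 := by
    intro j k hk
    have h1 : (X j (k + 1) : ℂ) =
        ((X j k - (rootSystem H).pairingIn ℤ (I k).1 j.1 : ℤ) : ℂ) := by
      push_cast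
      rw [hA j (I k), ← hroot (I k) k hk (hI k hk).1, ← hX j (k + 1) (by omega),
        ← hX j k (by omega), LinearMap.sub_apply]
      ring
    exact_mod_cast h1
  have hfm : ∀ (j : b.support) (a d : Fin (n + 1)), (a.val = d.val + 1 ∧ I d.val = j →
      LinearMap.toMatrix v v (LieModule.toEnd ℂ L V (T.f j.1)) a d = fc (I d.val) d.val) ∧
      (¬ (a.val = d.val + 1 ∧ I d.val = j) →
      LinearMap.toMatrix v v (LieModule.toEnd ℂ L V (T.f j.1)) a d = 0) := by
    intro j a d
    suffices hs : LinearMap.toMatrix v v (LieModule.toEnd ℂ L V (T.f j.1)) a d =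
        (Matrix.of fun a b : Fin (n + 1) =>
        if a.val = b.val + 1 ∧ I b.val = j then fc (I b.val) b.val else 0) a d by
      rw [hs, Matrix.of_apply]
      exact ⟨fun h => if_pos h, fun h => if_neg h⟩
    rw [LinearMap.toMatrix_apply, LieModule.toEnd_apply_apply, Matrix.of_apply]
    by_cases h : a.val = d.val + 1 ∧ I d.val = j
    · obtain ⟨h1, h2⟩ := h
      have hd : d.val < n := by have := a.2; omega
      rw [if_pos ⟨h1, h2⟩, fc_eq _ _ hd, h2]
      have ha : a = ⟨d.val + 1, by omega⟩ := Fin.ext h1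
      rw [ha]
    · rw [if_neg h]
      by_contra h'
      obtain ⟨h1, h2⟩ := hF j.1 j.2 _ _ h'
      apply h
      refine ⟨h1, ?_⟩
      have hd : d.val < n := by have := a.2; omega
      have h3 := hroot (I d.val) d.val hd (hI d.val hd).1
      have ha : a = ⟨d.val + 1, by omega⟩ := Fin.ext h1
      rw [ha] at h2
      exact hinj _ _ (h3.symm.trans h2)
  have hem : ∀ (j : b.support) (a d : Fin (n + 1)), (d.val = a.val + 1 ∧ I a.val = j →
      LinearMap.toMatrix v v (LieModule.toEnd ℂ L V (T.e j.1)) a d = ec (I a.val) a.val) ∧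
      (¬ (d.val = a.val + 1 ∧ I a.val = j) →
      LinearMap.toMatrix v v (LieModule.toEnd ℂ L V (T.e j.1)) a d = 0) := by
    intro j a d
    suffices hs : LinearMap.toMatrix v v (LieModule.toEnd ℂ L V (T.e j.1)) a d =
        (Matrix.of fun a b : Fin (n + 1) =>
        if b.val = a.val + 1 ∧ I a.val = j then ec (I a.val) a.val else 0) a d by
      rw [hs, Matrix.of_apply]
      exact ⟨fun h => if_pos h, fun h => if_neg h⟩
    rw [LinearMap.toMatrix_apply, LieModule.toEnd_apply_apply, Matrix.of_apply]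
    by_cases h : d.val = a.val + 1 ∧ I a.val = j
    · obtain ⟨h1, h2⟩ := h
      have hd : a.val < n := by have := d.2; omega
      rw [if_pos ⟨h1, h2⟩, ec_eq _ _ hd, h2]
      have ha : d = ⟨a.val + 1, by omega⟩ := Fin.ext h1
      rw [ha]
    · rw [if_neg h]
      by_contra h'
      obtain ⟨h1, h2⟩ := hE j.1 j.2 _ _ h'
      apply h
      refine ⟨h1, ?_⟩
      have hd : a.val < n := by have := d.2; omega
      have h3 := hroot (I a.val) a.val hd (hI a.val hd).1
      have ha : d = ⟨a.val + 1, by omega⟩ := Fin.ext h1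
      rw [ha] at h2
      exact hinj _ _ (h3.symm.trans h2)
  refine ⟨T, {
            A := fun j l => (rootSystem H).pairingIn ℤ l.1 j.1
            A_diag := fun j => (rootSystem H).pairingIn_same ℤ j.1
            A_zero := fun j l h => ((rootSystem H).pairingIn_eq_zero_iff).1 h
            i := I
            x := X
            x_succ := hXs
            x_zero := ?_
            x_run := ?_
            φ := fun k => fc (I k) k
            ε := fun k => ec (I k) k
            hφ := fun k hk => (hI k hk).1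
            hε := fun k hk => (hI k hk).2
            hrel := ?_
            hf := fun j => ⟨T.f j.1, by
              ext a d
              show LinearMap.toMatrix v v (LieModule.toEnd ℂ L V (T.f j.1)) a d = _
              rw [Matrix.of_apply]
              split_ifs with h
              · exact (hfm j a d).1 h
              · exact (hfm j a d).2 h⟩
            he := fun j => ⟨T.e j.1, by
              ext a d
              show LinearMap.toMatrix v v (LieModule.toEnd ℂ L V (T.e j.1)) a d = _
              rw [Matrix.of_apply]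
              split_ifs with h
              · exact (hem j a d).1 h
              · exact (hem j a d).2 h⟩ }, fun k hk => hroot (I k) k hk (hI k hk).1, hfm, hem⟩
  · intro j k hk h1 h2
    have h3 := hXp j k hk h1
    have h4 : pr j k = 0 := by
      rcases h2 with h2 | h2
      · exact pr_ge j k (by omega)
      · exact pr_ne j k (Ne.symm h2)
    rw [h4] at h3
    exact_mod_cast h3
  · intro j k l hkl hl h1 h2 h3
    have hs : ∀ s ≤ l, X j (k + s) = X j k - 2 * s := by
      intro s
      induction s with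
      | zero => intro _; simp
      | succ s ih =>
        intro hs
        have h5 := hXs j (k + s) (by omega)
        rw [h2 (k + s) (by omega) (by omega), (rootSystem H).pairingIn_same ℤ j.1,
          ih (by omega)] at h5
        rw [← add_assoc, h5]
        push_cast
        ring
    have hp : ∀ s ≤ l, pr j (k + s) = (s + 1) * X j k - s * (s + 1) := by
      intro s
      induction s with
      | zero =>
        intro _
        rw [Nat.add_zero, ← hXp j k (by omega) h1]
        push_cast
        ring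
      | succ s ih =>
        intro hs'
        have h5 := hX1 j (k + s) (by omega)
        rw [ih (by omega), show k + s + 1 = k + (s + 1) by ring, hs (s + 1) hs'] at h5
        push_cast at h5 ⊢
        linear_combination -h5
    have h4 : pr j (k + l) = 0 := by
      rcases h3 with h3 | h3
      · exact pr_ge j _ (by omega)
      · exact pr_ne j _ (Ne.symm h3)
    have h5 := hp l le_rfl
    rw [h4] at h5
    have h6 : ((l : ℂ) + 1) * ((X j k : ℂ) - l) = 0 := by linear_combination -h5
    rcases mul_eq_zero.1 h6 with h7 | h7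
    · exact absurd h7 (by exact_mod_cast Nat.succ_ne_zero l)
    · have h8 : (X j k : ℂ) = ((l : ℤ) : ℂ) := by
        push_cast
        exact sub_eq_zero.1 h7
      exact_mod_cast h8
  · intro k hk
    show pr (I k) k = (X (I k) k : ℂ) + _
    rcases Nat.eq_zero_or_pos k with h0 | h0
    · subst h0
      rw [if_neg (by simp), hX0, add_zero]
    · obtain ⟨k', rfl⟩ : ∃ k', k = k' + 1 := ⟨k - 1, by omega⟩
      rw [hX1 _ k' (by omega)]
      simp only [Nat.add_sub_cancel]
      by_cases h : I k' = I (k' + 1)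
      · rw [if_pos ⟨h0, h⟩, ← h]
        show pr (I k') (k' + 1) = pr (I k') (k' + 1) - pr (I k') k' + pr (I k') k'
        ring
      · rw [if_neg (fun h' => h h'.2), pr_ne (I (k' + 1)) k' (Ne.symm h)]
        ring
end lie

end Pool.Agent.GP
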