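import Pool.Agent.Helper8.P.Chain2
import Pool.Agent.GP.Core2
import Pool.Agent.GP.Gen

/-!
The chain of an irreducible Lie algebra of prime degree, with more information.
-/

namespace Pool.Agent.GP

open Module LieAlgebra LieAlgebra.IsKilling

attribute [local instance 100] LieRing.ofAssociativeRing

variable {V : Type} [AddCommGroup V] [Module ℂ V] [FiniteDimensional ℂ V]
  (L : LieSubalgebra ℂ (Module.End ℂ V))

/-- the chain of an irreducible Lie algebra of prime degree and a semisimple element -/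
theorem exists_core2 [LieModule.IsIrreducible ℂ L V]
    (htr : ∀ x ∈ L, LinearMap.trace ℂ V x = 0) (n : ℕ) (hp : (n + 1).Prime)
    (hn : finrank ℂ V = n + 1) (B : L) (hB : (B : Module.End ℂ V).IsSemisimple) (hB0 : B ≠ 0) :
    ∃ (J : Type) (v : Basis (Fin (n + 1)) ℂ V) (MC : MatChain n J (LM V (L := L) v))
      (m : Fin (n + 1) → ℂ) (r : J → ℂ) (E F : J → L),
      (∀ a, (B : Module.End ℂ V) (v a) = m a • v a) ∧
      (∀ k (hk : k < n), m ⟨k, by omega⟩ - m ⟨k + 1, by omega⟩ = r (MC.i k)) ∧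
      (∀ k (hk : k < n), (F (MC.i k) : Module.End ℂ V) (v ⟨k, by omega⟩) =
        MC.φ k • v ⟨k + 1, by omega⟩) ∧
      (∀ j k (hk : k < n), MC.i k ≠ j → (F j : Module.End ℂ V) (v ⟨k, by omega⟩) = 0) ∧
      (∀ j, (F j : Module.End ℂ V) (v ⟨n, by omega⟩) = 0) ∧
      (∀ k (hk : k < n), (E (MC.i k) : Module.End ℂ V) (v ⟨k + 1, by omega⟩) =
        MC.ε k • v ⟨k, by omega⟩) ∧
      (∀ j k (hk : k < n), MC.i k ≠ j → (E j : Module.End ℂ V) (v ⟨k + 1, by omega⟩) = 0) ∧
      (∀ j, (E j : Module.End ℂ V) (v ⟨0, by omega⟩) = 0) ∧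
      (∀ S : Submodule ℂ L, (∀ x ∈ S, ∀ y ∈ S, ⁅x, y⁆ ∈ S) → (∀ j, E j ∈ S) → (∀ j, F j ∈ S) →
        S = ⊤) ∧
      (∀ (x : L) (d : Fin (n + 1) → ℂ), (∀ a, (x : Module.End ℂ V) (v a) = d a • v a) →
        ∃ ρ : J → ℂ, ∀ k (hk : k < n), d ⟨k, by omega⟩ - d ⟨k + 1, by omega⟩ = ρ (MC.i k)) := by
  have hK : IsKilling ℂ L := isKilling_of_irr L htr
  have hnt : Nontrivial L := ⟨B, 0, hB0⟩
  obtain ⟨H, hH, hBH⟩ := exists_cartan B (ad_sub_isSemisimple L B hB)
  obtain ⟨b⟩ := (rootSystem H).nonempty_base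
  obtain ⟨v, wt, hv, hlev, hN⟩ := exists_level_basis H V b n hp hn
  obtain ⟨T, MC, hMC, hF, hE⟩ := exists_chain2 H V b n v wt hv hlev hN
  have hexp : ∀ (x : L) (c : Fin (n + 1)), (x : Module.End ℂ V) (v c) =
      ∑ a, LinearMap.toMatrix v v (LieModule.toEnd ℂ L V x) a c • v a := by
    intro x c
    have h1 : ∀ a, LinearMap.toMatrix v v (LieModule.toEnd ℂ L V x) a c =
        v.repr ((x : Module.End ℂ V) (v c)) a := by
      intro a
      rw [LinearMap.toMatrix_apply]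
      rfl
    simp only [h1]
    exact (v.sum_repr _).symm
  refine ⟨b.support, v, MC, fun a => wt a ⟨B, hBH⟩, fun j => (rootSystem H).root j ⟨B, hBH⟩,
    fun j => T.e j.1, fun j => T.f j.1, fun a => hv a ⟨B, hBH⟩,
    fun k hk => congrArg (fun l : Dual ℂ H => l ⟨B, hBH⟩) (hMC k hk), ?_, ?_, ?_, ?_, ?_, ?_, ?_,
    ?_⟩
  · intro k hk
    rw [hexp, Finset.sum_eq_single (⟨k + 1, by omega⟩ : Fin (n + 1))]
    · rw [(hF (MC.i k) ⟨k + 1, by omega⟩ ⟨k, by omega⟩).1 ⟨rfl, rfl⟩]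
    · intro a _ ha
      rw [(hF (MC.i k) a ⟨k, by omega⟩).2 (fun h => ha (Fin.ext h.1)), zero_smul]
    · intro h; exact absurd (Finset.mem_univ _) h
  · intro j k hk hj
    rw [hexp]
    refine Finset.sum_eq_zero fun a _ => ?_
    rw [(hF j a ⟨k, by omega⟩).2 (fun h => hj h.2), zero_smul]
  · intro j
    rw [hexp]
    refine Finset.sum_eq_zero fun a _ => ?_
    rw [(hF j a ⟨n, by omega⟩).2 (fun h => by have h1 := h.1; have h2 := a.2; simp at h1; omega),
      zero_smul]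
  · intro k hk
    rw [hexp, Finset.sum_eq_single (⟨k, by omega⟩ : Fin (n + 1))]
    · rw [(hE (MC.i k) ⟨k, by omega⟩ ⟨k + 1, by omega⟩).1 ⟨rfl, rfl⟩]
    · intro a _ ha
      rw [(hE (MC.i k) a ⟨k + 1, by omega⟩).2 (fun h => ha (Fin.ext (by
        have h1 := h.1; simp at h1; exact h1.symm))), zero_smul]
    · intro h; exact absurd (Finset.mem_univ _) h
  · intro j k hk hj
    rw [hexp]
    refine Finset.sum_eq_zero fun a _ => ?_
    rw [(hE j a ⟨k + 1, by omega⟩).2 (fun h => hj (by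
      have h1 : k = a.val := by have := h.1; simpa using this
      rw [h1]
      exact h.2)), zero_smul]
  · intro j
    rw [hexp]
    refine Finset.sum_eq_zero fun a _ => ?_
    rw [(hE j a ⟨0, by omega⟩).2 (fun h => by have h1 := h.1; simp at h1), zero_smul]
  · intro S hS hSe hSf
    exact T.gen b S hS (fun j hj => hSe ⟨j, hj⟩) (fun j hj => hSf ⟨j, hj⟩)
  · intro x d hx
    have hxH : x ∈ H := by
      rw [← LieSubalgebra.IsCartanSubalgebra.self_normalizing (H := H),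
        LieSubalgebra.mem_normalizer_iff]
      intro y hy
      have h1 : ⁅x, y⁆ = 0 := by
        apply Subtype.ext
        apply v.ext
        intro a
        have h2 : (y : Module.End ℂ V) (v a) = wt a ⟨y, hy⟩ • v a := hv a ⟨y, hy⟩
        show (x : Module.End ℂ V) ((y : Module.End ℂ V) (v a)) -
          (y : Module.End ℂ V) ((x : Module.End ℂ V) (v a)) = 0
        rw [h2, hx, map_smul, map_smul, h2, hx, smul_smul, smul_smul, mul_comm, sub_self]
      rw [h1]
      exact H.zero_mem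
    refine ⟨fun j => (rootSystem H).root j ⟨x, hxH⟩, fun k hk => ?_⟩
    have h1 : ∀ a, d a = wt a ⟨x, hxH⟩ := by
      intro a
      have h2 : (x : Module.End ℂ V) (v a) = wt a ⟨x, hxH⟩ • v a := hv a ⟨x, hxH⟩
      rw [hx] at h2
      have h3 : (d a - wt a ⟨x, hxH⟩) • v a = 0 := by rw [sub_smul, h2, sub_self]
      exact sub_eq_zero.mp ((smul_eq_zero.mp h3).resolve_right (v.ne_zero a))
    rw [h1, h1]
    exact congrArg (fun l : Dual ℂ H => l ⟨x, hxH⟩) (hMC k hk)

end Pool.Agent.GP
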