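import Pool.Agent.GP.G2F
import Pool.Agent.Helper8.P.Core3
import Pool.Agent.Helper8.P.Skew

/-!
Gabber's theorem in dimension seven: the exceptional case is excluded by the signature.
-/

namespace Pool.Agent.GP

open Module Matrix Pool.Agent.Ball

section ker

variable {V : Type} [AddCommGroup V] [Module ℂ V] [FiniteDimensional ℂ V]

/-- the kernel of a diagonal operator -/
lemma finrank_ker_le' {n : ℕ} (v : Basis (Fin n) ℂ V) (x : Module.End ℂ V) (m : Fin n → ℂ)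
    (hm : ∀ a, x (v a) = m a • v a) (hinj : ∀ a b, m a = 0 → m b = 0 → a = b) :
    finrank ℂ (LinearMap.ker x) ≤ 1 := by
  have h1 : ∀ u, x u = 0 → ∀ a, m a * v.repr u a = 0 := by
    intro u hu a
    have h2 : x u = ∑ a, (v.repr u a * m a) • v a := by
      conv_lhs => rw [← v.sum_repr u]
      rw [map_sum]
      refine Finset.sum_congr rfl fun a _ => ?_
      rw [map_smul, hm, smul_smul]
    rw [h2] at hu
    have h3 := (Fintype.linearIndependent_iff.mp v.linearIndependent) _ hu a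
    rw [mul_comm]
    exact h3
  by_cases h0 : ∃ a, m a = 0
  · obtain ⟨a₀, ha₀⟩ := h0
    rw [finrank_le_one_iff]
    refine ⟨⟨v a₀, ?_⟩, fun u => ⟨v.repr u.1 a₀, ?_⟩⟩
    · rw [LinearMap.mem_ker, hm, ha₀, zero_smul]
    · apply Subtype.ext
      have h2 : (u : V) = v.repr u.1 a₀ • v a₀ := by
        conv_lhs => rw [← v.sum_repr u.1]
        rw [Finset.sum_eq_single a₀]
        · intro a _ ha
          have h3 := h1 u.1 u.2 a
          rcases mul_eq_zero.mp h3 with h4 | h4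
          · exact absurd (hinj a a₀ h4 ha₀) ha
          · rw [h4, zero_smul]
        · intro h
          exact absurd (Finset.mem_univ _) h
      exact h2.symm
  · push Not at h0
    have h2 : LinearMap.ker x = ⊥ := by
      rw [eq_bot_iff]
      intro u hu
      rw [Submodule.mem_bot, ← v.repr.map_eq_zero_iff]
      ext a
      rcases mul_eq_zero.mp (h1 u hu a) with h4 | h4
      · exact absurd h4 (h0 a)
      · exact h4
    rw [h2, finrank_bot]
    exact Nat.zero_le _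

end ker

/-- isotropic subspaces of an unbalanced form -/
lemma isotropic_le {m : ℕ} {H0 : Matrix (Fin m) (Fin m) ℂ} (hH : Unbal H0)
    (W : Submodule ℂ (Fin m → ℂ)) (hW : ∀ u ∈ W, ∀ v ∈ W, hf H0 u v = 0) :
    2 * finrank ℂ W + 3 ≤ m := by
  obtain ⟨-, -, -, -, E, hE, hdef⟩ := hH
  have h2 : W ⊓ E = ⊥ := by
    rw [eq_bot_iff]
    rintro w ⟨hwW, hwE⟩
    rw [Submodule.mem_bot]
    by_contra hw0
    have h0 := hW w hwW w hwW
    rcases hdef with h | h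
    · have := h w hwE hw0
      rw [h0] at this
      exact lt_irrefl _ this
    · have := h w hwE hw0
      rw [h0] at this
      exact lt_irrefl _ this
  have h3 := Submodule.finrank_sup_add_finrank_inf_eq W E
  rw [h2, finrank_bot, add_zero] at h3
  have h4 := Submodule.finrank_le (W ⊔ E)
  rw [finrank_fintype_fun_eq_card, Fintype.card_fin] at h4
  omega

/-- an eigenvalue of an operator with a spanning set of real eigenvectors is real -/
lemma eigenvalue_real {m : ℕ} (B : Matrix (Fin m) (Fin m) ℂ)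
    (hBd : ∀ v : Fin m → ℂ, v ∈ Submodule.span ℂ {w | ∃ r : ℝ, B *ᵥ w = (r : ℂ) • w})
    (w : Fin m → ℂ) (hw0 : w ≠ 0) (μ : ℂ) (hw : B *ᵥ w = μ • w) : ∃ r : ℝ, μ = r := by
  obtain ⟨v, r, hv⟩ := exists_eigenbasis B hBd
  obtain ⟨a, ha⟩ : ∃ a, v.repr w a ≠ 0 := by
    by_contra hcon
    push Not at hcon
    apply hw0
    rw [← v.repr.map_eq_zero_iff]
    ext a
    exact hcon a
  refine ⟨r a, ?_⟩
  have h1 : B *ᵥ w = ∑ c, (v.repr w c * r c) • v c := by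
    conv_lhs => rw [← v.sum_repr w]
    rw [Matrix.mulVec_sum]
    refine Finset.sum_congr rfl fun c _ => ?_
    rw [Matrix.mulVec_smul, hv, smul_smul]
  have h2 : v.repr (B *ᵥ w) a = v.repr w a * r a := by
    rw [h1, v.repr_sum_self]
  rw [hw, map_smul, Finsupp.smul_apply, smul_eq_mul, mul_comm] at h2
  exact mul_left_cancel₀ ha h2

section g2

attribute [local instance 100] LieRing.ofAssociativeRing

/-- the data of the exceptional chain, after rescaling of the basis -/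
structure G2Data (L : Submodule ℂ (Matrix (Fin 7) (Fin 7) ℂ)) (B : Matrix (Fin 7) (Fin 7) ℂ)
    (u : Basis (Fin 7) ℂ (Fin 7 → ℂ)) (E1 E2 F1 F2 : Matrix (Fin 7) (Fin 7) ℂ) (s t : ℂ) :
    Prop where
  hE1 : E1 ∈ L
  hE2 : E2 ∈ L
  hF1 : F1 ∈ L
  hF2 : F2 ∈ L
  F1u : ∀ k, F1 *ᵥ u k = ![u 1, 0, u 3, u 4, 0, u 6, 0] k
  F2u : ∀ k, F2 *ᵥ u k = ![0, u 2, 0, 0, u 5, 0, 0] k
  E1u : ∀ k, E1 *ᵥ u k = ![0, u 0, 0, (2 : ℂ) • u 2, (2 : ℂ) • u 3, 0, u 5] k
  E2u : ∀ k, E2 *ᵥ u k = ![0, 0, u 1, 0, 0, u 4, 0] k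
  Bu : ∀ k, B *ᵥ u k =
    (![2 * s + t, s + t, s, 0, -s, -s - t, -2 * s - t] : Fin 7 → ℂ) k • u k
  gen : ∀ S : Submodule ℂ (Matrix (Fin 7) (Fin 7) ℂ), (∀ X ∈ S, ∀ Y ∈ S, X * Y - Y * X ∈ S) →
    E1 ∈ S → E2 ∈ S → F1 ∈ S → F2 ∈ S → L ≤ S
  diag : ∀ X ∈ L, ∀ d : Fin 7 → ℂ, (∀ k, X *ᵥ u k = d k • u k) →
    ∃ s t : ℂ, d = ![2 * s + t, s + t, s, 0, -s, -s - t, -2 * s - t]

/-- the invariant symmetric form -/
noncomputable def Qf (u : Basis (Fin 7) ℂ (Fin 7 → ℂ)) :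
    (Fin 7 → ℂ) →ₗ[ℂ] (Fin 7 → ℂ) →ₗ[ℂ] ℂ :=
  LinearMap.mk₂ ℂ (fun x y => ∑ k : Fin 7, (-1 : ℂ) ^ (k : ℕ) * u.repr x k * u.repr y (Fin.rev k))
    (fun x x' y => by
      rw [← Finset.sum_add_distrib]
      refine Finset.sum_congr rfl fun k _ => ?_
      rw [map_add, Finsupp.add_apply]
      ring)
    (fun c x y => by
      rw [smul_eq_mul, Finset.mul_sum]
      refine Finset.sum_congr rfl fun k _ => ?_
      rw [map_smul, Finsupp.smul_apply, smul_eq_mul]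
      ring)
    (fun x y y' => by
      rw [← Finset.sum_add_distrib]
      refine Finset.sum_congr rfl fun k _ => ?_
      rw [map_add, Finsupp.add_apply]
      ring)
    (fun c x y => by
      rw [smul_eq_mul, Finset.mul_sum]
      refine Finset.sum_congr rfl fun k _ => ?_
      rw [map_smul, Finsupp.smul_apply, smul_eq_mul]
      ring)

lemma Qf_apply (u : Basis (Fin 7) ℂ (Fin 7 → ℂ)) (x y : Fin 7 → ℂ) :
    Qf u x y = ∑ k : Fin 7, (-1 : ℂ) ^ (k : ℕ) * u.repr x k * u.repr y (Fin.rev k) := rfl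

lemma Qf_basis (u : Basis (Fin 7) ℂ (Fin 7 → ℂ)) (k l : Fin 7) :
    Qf u (u k) (u l) = if (k : ℕ) + l = 6 then (-1 : ℂ) ^ (k : ℕ) else 0 := by
  rw [Qf_apply, Finset.sum_eq_single k]
  · rw [Basis.repr_self, Basis.repr_self, Finsupp.single_eq_same, mul_one, Finsupp.single_apply]
    by_cases h : l = Fin.rev k
    · rw [if_pos h, if_pos, mul_one]
      rw [h, Fin.val_rev]
      omega
    · rw [if_neg h, if_neg, mul_zero]
      intro h'
      apply h
      apply Fin.ext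
      rw [Fin.val_rev]
      omega
  · intro a _ ha
    rw [Basis.repr_self, Finsupp.single_eq_of_ne ha, mul_zero, zero_mul]
  · intro h
    exact absurd (Finset.mem_univ _) h

lemma Qf_symm (u : Basis (Fin 7) ℂ (Fin 7 → ℂ)) (x y : Fin 7 → ℂ) : Qf u x y = Qf u y x := by
  rw [Qf_apply, Qf_apply, ← Equiv.sum_comp Fin.revPerm]
  refine Finset.sum_congr rfl fun k _ => ?_
  rw [Fin.revPerm_apply, Fin.rev_rev]
  have h : (-1 : ℂ) ^ ((Fin.rev k : Fin 7) : ℕ) = (-1 : ℂ) ^ (k : ℕ) := by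
    fin_cases k <;> norm_num [Fin.rev]
  rw [h]
  ring

/-- invariance on a basis -/
lemma Qf_inv (u : Basis (Fin 7) ℂ (Fin 7 → ℂ)) (X : Matrix (Fin 7) (Fin 7) ℂ)
    (h : ∀ k l, Qf u (X *ᵥ u k) (u l) + Qf u (u k) (X *ᵥ u l) = 0) (x y : Fin 7 → ℂ) :
    Qf u (X *ᵥ x) y + Qf u x (X *ᵥ y) = 0 := by
  have h1 : Qf u ∘ₗ (Matrix.toLin' X) + (Qf u).compl₂ (Matrix.toLin' X) = 0 := by
    refine u.ext fun k => u.ext fun l => ?_
    exact h k l
  have h2 := LinearMap.congr_fun (LinearMap.congr_fun h1 x) y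
  exact h2

/-- the matrices preserving the form -/
noncomputable def invQ (u : Basis (Fin 7) ℂ (Fin 7 → ℂ)) :
    Submodule ℂ (Matrix (Fin 7) (Fin 7) ℂ) where
  carrier := {X | ∀ x y, Qf u (X *ᵥ x) y + Qf u x (X *ᵥ y) = 0}
  zero_mem' x y := by simp
  add_mem' {X Y} hX hY x y := by
    rw [Matrix.add_mulVec, Matrix.add_mulVec, map_add, map_add, LinearMap.add_apply]
    linear_combination hX x y + hY x y
  smul_mem' c X hX x y := by
    rw [Matrix.smul_mulVec, Matrix.smul_mulVec, map_smul, map_smul, LinearMap.smul_apply,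
      smul_eq_mul, smul_eq_mul]
    linear_combination c * hX x y

lemma invQ_br (u : Basis (Fin 7) ℂ (Fin 7 → ℂ)) :
    ∀ X ∈ invQ u, ∀ Y ∈ invQ u, X * Y - Y * X ∈ invQ u := by
  intro X hX Y hY x y
  rw [Matrix.sub_mulVec, Matrix.sub_mulVec, map_sub, map_sub, LinearMap.sub_apply,
    ← Matrix.mulVec_mulVec, ← Matrix.mulVec_mulVec, ← Matrix.mulVec_mulVec,
    ← Matrix.mulVec_mulVec]
  have h1 := hX (Y *ᵥ x) y
  have h2 := hY x (X *ᵥ y)
  have h3 := hY (X *ᵥ x) y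
  have h4 := hX x (Y *ᵥ y)
  linear_combination h1 - h2 - h3 + h4

variable {L : Submodule ℂ (Matrix (Fin 7) (Fin 7) ℂ)} {B : Matrix (Fin 7) (Fin 7) ℂ}
    {u : Basis (Fin 7) ℂ (Fin 7 → ℂ)} {E1 E2 F1 F2 : Matrix (Fin 7) (Fin 7) ℂ} {s t : ℂ}

lemma G2Data.inv (G : G2Data L B u E1 E2 F1 F2 s t) : L ≤ invQ u := by
  apply G.gen _ (invQ_br u)
  · refine Qf_inv u _ fun k l => ?_
    rw [G.E1u, G.E1u]
    fin_cases k <;> fin_cases l <;> simp [Qf_basis] <;> norm_num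
  · refine Qf_inv u _ fun k l => ?_
    rw [G.E2u, G.E2u]
    fin_cases k <;> fin_cases l <;> simp [Qf_basis] <;> norm_num
  · refine Qf_inv u _ fun k l => ?_
    rw [G.F1u, G.F1u]
    fin_cases k <;> fin_cases l <;> simp [Qf_basis] <;> norm_num
  · refine Qf_inv u _ fun k l => ?_
    rw [G.F2u, G.F2u]
    fin_cases k <;> fin_cases l <;> simp [Qf_basis] <;> norm_num

lemma br_mulVec {n : ℕ} (X Y : Matrix (Fin n) (Fin n) ℂ) (v : Fin n → ℂ) :
    (X * Y - Y * X) *ᵥ v = X *ᵥ (Y *ᵥ v) - Y *ᵥ (X *ᵥ v) := by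
  rw [Matrix.sub_mulVec, Matrix.mulVec_mulVec, Matrix.mulVec_mulVec]

/-- a diagonal element of the algebra vanishes if two of its entries do -/
lemma G2Data.diag_zero (G : G2Data L B u E1 E2 F1 F2 s t) (p : Fin 7 → Fin 7)
    (hp : ∀ k, p (p k) = k) (w : Basis (Fin 7) ℂ (Fin 7 → ℂ)) (hw : ∀ k, w k = u (p k))
    (hz : ∀ s t : ℂ, ![2 * s + t, s + t, s, 0, -s, -s - t, -2 * s - t] (p 0) = 0 →
      ![2 * s + t, s + t, s, 0, -s, -s - t, -2 * s - t] (p 1) = 0 → s = 0 ∧ t = 0)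
    (X : Matrix (Fin 7) (Fin 7) ℂ) (hX : X ∈ L) (d : Fin 7 → ℂ)
    (hd : ∀ k, X *ᵥ w k = d k • w k) (hd0 : d 0 = 0) (hd1 : d 1 = 0) : X = 0 := by
  obtain ⟨s', t', h⟩ := G.diag X hX (fun k => d (p k)) (fun k => by
    have h1 := hd (p k)
    rw [hw, hp] at h1
    exact h1)
  have h2 : ∀ k, d k = ![2 * s' + t', s' + t', s', 0, -s', -s' - t', -2 * s' - t'] (p k) := by
    intro k
    have h3 := congrFun h (p k)
    simp only [hp] at h3
    exact h3
  obtain ⟨hs, ht⟩ := hz s' t' (by rw [← h2, hd0]) (by rw [← h2, hd1])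
  have h3 : ∀ k, d k = 0 := by
    intro k
    rw [h2, hs, ht]
    generalize p k = l
    fin_cases l <;> simp
  have h4 : Matrix.toLin' X = 0 := by
    apply w.ext
    intro k
    rw [Matrix.toLin'_apply, hd, h3, zero_smul, LinearMap.zero_apply]
  rw [← Matrix.toLin'.map_eq_zero_iff]
  exact h4

/-- exclusion of the exceptional case -/
theorem g2_false {H0 : Matrix (Fin 7) (Fin 7) ℂ} (hH : Unbal H0)
    (hbr : ∀ X ∈ L, ∀ Y ∈ L, X * Y - Y * X ∈ L)
    (hirr : ∀ W : Submodule ℂ (Fin 7 → ℂ), (∀ X ∈ L, ∀ w ∈ W, X *ᵥ w ∈ W) → W = ⊥ ∨ W = ⊤)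
    (hadj : ∀ X ∈ L, ∃ X' ∈ L, ∀ u v, hf H0 (X' *ᵥ u) v = hf H0 u (X *ᵥ v))
    (hB : B ∈ L) (hBs : ∀ u v, hf H0 (B *ᵥ u) v + hf H0 u (B *ᵥ v) = 0)
    (hBd : ∀ v : Fin 7 → ℂ, v ∈ Submodule.span ℂ {w | ∃ r : ℝ, B *ᵥ w = (r : ℂ) • w})
    (hB0 : B ≠ 0) (G : G2Data L B u E1 E2 F1 F2 s t) : False := by
  have hiso : ∀ W : Submodule ℂ (Fin 7 → ℂ), (∀ u ∈ W, ∀ v ∈ W, hf H0 u v = 0) →
      finrank ℂ W ≤ 2 := by
    intro W hW
    have := isotropic_le hH W hW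
    omega
  have hQ : ∀ X ∈ L, ∀ x y, Qf u (X *ᵥ x) y + Qf u x (X *ᵥ y) = 0 := fun X hX => G.inv hX
  obtain ⟨rs, hrs⟩ := eigenvalue_real B hBd (u 2) (u.ne_zero 2) s (by
    rw [G.Bu]
    simp)
  obtain ⟨rt, hrt⟩ := eigenvalue_real B hBd (u 1) (u.ne_zero 1) (s + t) (by
    rw [G.Bu]
    simp)
  have hker := three_le_ker hH B hBs hBd
  have hzero : s = 0 → t = 0 → False := by
    intro hs ht
    apply hB0
    rw [← Matrix.toLin'.map_eq_zero_iff]
    apply u.ext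
    intro k
    rw [Matrix.toLin'_apply, G.Bu, hs, ht]
    fin_cases k <;> simp
  have h3 : s = 0 ∨ s + t = 0 ∨ 2 * s + t = 0 := by
    by_contra hcon
    push Not at hcon
    obtain ⟨h1, h2, h3⟩ := hcon
    have h4 := finrank_ker_le' u (Matrix.toLin' B)
      ![2 * s + t, s + t, s, 0, -s, -s - t, -2 * s - t] (fun k => G.Bu k) (by
        have h5 : ∀ k, ![2 * s + t, s + t, s, 0, -s, -s - t, -2 * s - t] k = 0 → k = 3 := by
          intro k
          have h6 : -s - t ≠ 0 := fun h => h2 (by linear_combination -h)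
          have h7 : -2 * s - t ≠ 0 := fun h => h3 (by linear_combination -h)
          have h8 : -(2 * s) - t ≠ 0 := fun h => h3 (by linear_combination -h)
          fin_cases k <;> simp [h1, h2, h3, h6, h8]
        intro a b ha hb
        rw [h5 a ha, h5 b hb])
    have h5 : LinearMap.ker (Matrix.toLin' B) = LinearMap.ker B.mulVecLin := rfl
    rw [h5] at h4
    omega
  have hbr' : ∀ {X Y}, X ∈ L → Y ∈ L → X * Y - Y * X ∈ L := fun hX hY => hbr _ hX _ hY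
  rcases h3 with h3 | h3 | h3
  · -- first case
    have ht : t = rt := by rw [← hrt, h3, zero_add]
    have ht0 : rt ≠ 0 := by
      rintro rfl
      exact hzero h3 (by rw [ht]; simp)
    refine g2_final H0 hH.1 hH.2.1 hiso L hbr hirr hadj u (Qf u) ?_ ?_ (Qf_symm u) hQ B hB hBs
      rt ht0 ?_ ?_ ?_ ?_ ?_ ?_ ?_ E1 F1 G.hE1 G.hF1 2 2 1 1 1 1 (by norm_num) (by norm_num)
      (by norm_num) ?_ ?_ ?_ ?_ ?_ ?_ ?_ ?_ ?_ ?_ ?_ ?_ ?_ ?_
      (G.diag_zero id (fun _ => rfl) u (fun _ => rfl) ?_)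
    · intro k l hkl
      rw [Qf_basis, if_neg hkl]
    · intro k l hkl
      rw [Qf_basis, if_pos hkl]
      exact pow_ne_zero _ (by norm_num)
    all_goals first
      | (rw [G.Bu]; simp [h3, ht])
      | (rw [G.E1u]; simp)
      | (rw [G.F1u]; simp)
      | skip
    intro s t h1 h2
    simp at h1 h2
    constructor
    · linear_combination h1 - h2
    · linear_combination 2 * h2 - h1
  · -- second case
    have ht : t = -rs := by rw [← hrs]; linear_combination h3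
    have hs0 : rs ≠ 0 := by
      rintro rfl
      exact hzero (by rw [hrs]; simp) (by rw [ht]; simp)
    obtain ⟨p, hpdef⟩ : ∃ p : Fin 7 → Fin 7, p = ![0, 2, 1, 3, 5, 4, 6] := ⟨_, rfl⟩
    have hp : ∀ k, p (p k) = k := by rw [hpdef]; decide
    obtain ⟨w, hw⟩ : ∃ w : Basis (Fin 7) ℂ (Fin 7 → ℂ), ∀ k, w k = u (p k) :=
      ⟨u.reindex ⟨p, p, hp, hp⟩, fun k => by rw [Basis.reindex_apply]; rfl⟩
    have w0 : w 0 = u 0 := by rw [hw, hpdef]; rfl
    have w1 : w 1 = u 2 := by rw [hw, hpdef]; rfl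
    have w2 : w 2 = u 1 := by rw [hw, hpdef]; rfl
    have w3 : w 3 = u 3 := by rw [hw, hpdef]; rfl
    have w4 : w 4 = u 5 := by rw [hw, hpdef]; rfl
    have w5 : w 5 = u 4 := by rw [hw, hpdef]; rfl
    have w6 : w 6 = u 6 := by rw [hw, hpdef]; rfl
    have hpk : ∀ k l : Fin 7, (p k : ℕ) + p l = 6 ↔ (k : ℕ) + l = 6 := by
      rw [hpdef]; decide
    refine g2_final H0 hH.1 hH.2.1 hiso L hbr hirr hadj w (Qf u) ?_ ?_ (Qf_symm u) hQ B hB hBs
      rs hs0 ?_ ?_ ?_ ?_ ?_ ?_ ?_ (E1 * E2 - E2 * E1) (F2 * F1 - F1 * F2) (hbr' G.hE1 G.hE2)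
      (hbr' G.hF2 G.hF1) (-2) 2 (-1) (-1) 1 (-1) (by norm_num) (by norm_num)
      (by norm_num) ?_ ?_ ?_ ?_ ?_ ?_ ?_ ?_ ?_ ?_ ?_ ?_ ?_ ?_
      (G.diag_zero p hp w hw ?_)
    · intro k l hkl
      rw [hw, hw, Qf_basis, if_neg (fun h => hkl ((hpk k l).mp h))]
    · intro k l hkl
      rw [hw, hw, Qf_basis, if_pos ((hpk k l).mpr hkl)]
      exact pow_ne_zero _ (by norm_num)
    all_goals try simp only [w0, w1, w2, w3, w4, w5, w6]
    all_goals first
      | (rw [G.Bu]; simp [hrs, ht]; done)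
      | (rw [br_mulVec]; simp [G.E1u, G.E2u, G.F1u, G.F2u, Matrix.mulVec_smul]; done)
      | (rw [G.Bu]; congr 1; simp [hrs, ht]; ring)
      | skip
    rw [hpdef]
    intro s t h1 h2
    simp at h1 h2
    refine ⟨h2, ?_⟩
    linear_combination h1 - 2 * h2
  · -- third case
    have ht : t = -2 * rs := by rw [← hrs]; linear_combination h3
    have hs0 : rs ≠ 0 := by
      rintro rfl
      exact hzero (by rw [hrs]; simp) (by rw [ht]; simp)
    obtain ⟨p, hpdef⟩ : ∃ p : Fin 7 → Fin 7, p = ![2, 5, 0, 3, 6, 1, 4] := ⟨_, rfl⟩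
    have hp : ∀ k, p (p k) = k := by rw [hpdef]; decide
    obtain ⟨w, hw⟩ : ∃ w : Basis (Fin 7) ℂ (Fin 7 → ℂ), ∀ k, w k = u (p k) :=
      ⟨u.reindex ⟨p, p, hp, hp⟩, fun k => by rw [Basis.reindex_apply]; rfl⟩
    have w0 : w 0 = u 2 := by rw [hw, hpdef]; rfl
    have w1 : w 1 = u 5 := by rw [hw, hpdef]; rfl
    have w2 : w 2 = u 0 := by rw [hw, hpdef]; rfl
    have w3 : w 3 = u 3 := by rw [hw, hpdef]; rfl
    have w4 : w 4 = u 6 := by rw [hw, hpdef]; rfl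
    have w5 : w 5 = u 1 := by rw [hw, hpdef]; rfl
    have w6 : w 6 = u 4 := by rw [hw, hpdef]; rfl
    have hpk : ∀ k l : Fin 7, (p k : ℕ) + p l = 6 ↔ (k : ℕ) + l = 6 := by
      rw [hpdef]; decide
    refine g2_final H0 hH.1 hH.2.1 hiso L hbr hirr hadj w (Qf u) ?_ ?_ (Qf_symm u) hQ B hB hBs
      rs hs0 ?_ ?_ ?_ ?_ ?_ ?_ ?_ ((1 / 4 : ℂ) • (E1 * (E1 * E2 - E2 * E1) - (E1 * E2 - E2 * E1) * E1))
      (F1 * (F1 * F2 - F2 * F1) - (F1 * F2 - F2 * F1) * F1)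
      (L.smul_mem _ (hbr' G.hE1 (hbr' G.hE1 G.hE2)))
      (hbr' G.hF1 (hbr' G.hF1 G.hF2)) (-1) (-1) 1 (-2) (-2) 1 (by norm_num) (by norm_num)
      (by norm_num) ?_ ?_ ?_ ?_ ?_ ?_ ?_ ?_ ?_ ?_ ?_ ?_ ?_ ?_
      (G.diag_zero p hp w hw ?_)
    · intro k l hkl
      rw [hw, hw, Qf_basis, if_neg (fun h => hkl ((hpk k l).mp h))]
    · intro k l hkl
      rw [hw, hw, Qf_basis, if_pos ((hpk k l).mpr hkl)]
      exact pow_ne_zero _ (by norm_num)
    all_goals try simp only [w0, w1, w2, w3, w4, w5, w6]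
    all_goals first
      | (rw [G.Bu]; simp [hrs, ht]; done)
      | (rw [Matrix.smul_mulVec, br_mulVec, br_mulVec, br_mulVec]
         simp [G.E1u, G.E2u, G.F1u, G.F2u, Matrix.mulVec_smul]; done)
      | (rw [Matrix.smul_mulVec, br_mulVec, br_mulVec, br_mulVec]
         simp [G.E1u, G.E2u, G.F1u, G.F2u, Matrix.mulVec_smul, Matrix.mulVec_neg]; match_scalars <;> norm_num)
      | (rw [br_mulVec, br_mulVec, br_mulVec]
         simp [G.E1u, G.E2u, G.F1u, G.F2u, Matrix.mulVec_smul]; done)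
      | (rw [br_mulVec, br_mulVec, br_mulVec]
         simp [G.E1u, G.E2u, G.F1u, G.F2u, Matrix.mulVec_smul, Matrix.mulVec_neg]; match_scalars <;> norm_num)
      | (rw [G.Bu]; congr 1; simp [hrs, ht]; ring)
      | skip
    rw [hpdef]
    intro s t h1 h2
    simp at h1 h2
    refine ⟨h1, ?_⟩
    linear_combination -h1 - h2

end g2

end Pool.Agent.GP
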