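import Pool.Agent.Helper8.P.Core7

/-!
Gabber's theorem, including dimension seven.
-/

namespace Pool.Agent.GP

open Module Matrix Pool.Agent.Ball

attribute [local instance 100] LieRing.ofAssociativeRing

section mat

variable {n : ℕ} {L : Submodule ℂ (Matrix (Fin n) (Fin n) ℂ)}
  {hbr : ∀ X ∈ L, ∀ Y ∈ L, X * Y - Y * X ∈ L}

/-- the matrix of an operator of the Lie algebra -/
noncomputable def matOf (x : opL L hbr) : Matrix (Fin n) (Fin n) ℂ :=
  LinearMap.toMatrix' (x : Module.End ℂ (Fin n → ℂ))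

lemma matOf_mem (x : opL L hbr) : matOf x ∈ L := by
  obtain ⟨X, hX, h⟩ := x.2
  have h1 : matOf x = X := by
    rw [matOf, ← h]
    exact LinearMap.toMatrix'_toLin' X
  rw [h1]
  exact hX

lemma matOf_mulVec (x : opL L hbr) (w : Fin n → ℂ) :
    matOf x *ᵥ w = (x : Module.End ℂ (Fin n → ℂ)) w := by
  rw [matOf, LinearMap.toMatrix'_mulVec]

lemma trace_of_diag (X : Matrix (Fin n) (Fin n) ℂ) (v : Basis (Fin n) ℂ (Fin n → ℂ))
    (d : Fin n → ℂ) (hd : ∀ a, X *ᵥ v a = d a • v a) : X.trace = ∑ a, d a := by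
  have h2 : LinearMap.toMatrix v v (Matrix.toLin' X) = Matrix.diagonal d := by
    ext a b
    rw [LinearMap.toMatrix_apply, Matrix.toLin'_apply, hd, map_smul, Basis.repr_self,
      Finsupp.smul_apply, smul_eq_mul, Matrix.diagonal_apply, Finsupp.single_apply]
    by_cases h : a = b
    · rw [if_pos h, if_pos h.symm, mul_one, h]
    · rw [if_neg h, if_neg (Ne.symm h), mul_zero]
  have h3 := LinearMap.trace_eq_matrix_trace ℂ v (Matrix.toLin' X)
  rw [h2, Matrix.trace_diagonal, Matrix.trace_toLin'_eq] at h3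
  exact h3

end mat

/-- from the exceptional chain to the data -/
theorem exists_g2data {L : Submodule ℂ (Matrix (Fin 7) (Fin 7) ℂ)}
    (hbr : ∀ X ∈ L, ∀ Y ∈ L, X * Y - Y * X ∈ L) (htr : ∀ X ∈ L, X.trace = 0)
    {J : Type} (v : Basis (Fin 7) ℂ (Fin 7 → ℂ)) {M : Submodule ℂ (Matrix (Fin 7) (Fin 7) ℂ)}
    (MC : MatChain 6 J M) (E F : J → opL L hbr)
    (hF : ∀ k (hk : k < 6), (F (MC.i k) : Module.End ℂ (Fin 7 → ℂ)) (v ⟨k, by omega⟩) =
      MC.φ k • v ⟨k + 1, by omega⟩)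
    (hF0 : ∀ j k (hk : k < 6), MC.i k ≠ j →
      (F j : Module.End ℂ (Fin 7 → ℂ)) (v ⟨k, by omega⟩) = 0)
    (hF6 : ∀ j, (F j : Module.End ℂ (Fin 7 → ℂ)) (v ⟨6, by omega⟩) = 0)
    (hE : ∀ k (hk : k < 6), (E (MC.i k) : Module.End ℂ (Fin 7 → ℂ)) (v ⟨k + 1, by omega⟩) =
      MC.ε k • v ⟨k, by omega⟩)
    (hE0 : ∀ j k (hk : k < 6), MC.i k ≠ j →
      (E j : Module.End ℂ (Fin 7 → ℂ)) (v ⟨k + 1, by omega⟩) = 0)
    (hEz : ∀ j, (E j : Module.End ℂ (Fin 7 → ℂ)) (v ⟨0, by omega⟩) = 0)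
    (hgen : ∀ S : Submodule ℂ (opL L hbr), (∀ x ∈ S, ∀ y ∈ S, ⁅x, y⁆ ∈ S) → (∀ j, E j ∈ S) →
      (∀ j, F j ∈ S) → S = ⊤)
    (hdiag : ∀ (x : opL L hbr) (d : Fin 7 → ℂ),
      (∀ a, (x : Module.End ℂ (Fin 7 → ℂ)) (v a) = d a • v a) →
        ∃ ρ : J → ℂ, ∀ k (hk : k < 6), d ⟨k, by omega⟩ - d ⟨k + 1, by omega⟩ = ρ (MC.i k))
    (h1 : MC.i 1 ≠ MC.i 0) (h2 : MC.i 2 = MC.i 0) (h3 : MC.i 3 = MC.i 0)
    (h4 : MC.i 4 = MC.i 1) (h5 : MC.i 5 = MC.i 0)
    (B : Matrix (Fin 7) (Fin 7) ℂ) (hB : B ∈ L) (m : Fin 7 → ℂ)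
    (hm : ∀ a, B *ᵥ v a = m a • v a) :
    ∃ (u : Basis (Fin 7) ℂ (Fin 7 → ℂ)) (E1 E2 F1 F2 : Matrix (Fin 7) (Fin 7) ℂ) (s t : ℂ),
      G2Data L B u E1 E2 F1 F2 s t := by
  classical
  -- the products
  have x0 : MC.x (MC.i 0) 0 = 1 := by
    have := MC.x_run (MC.i 0) 0 1 (by norm_num) (by norm_num) (Or.inl rfl)
      (fun t _ ht => by
        have : t = 0 := by omega
        rw [this]) (Or.inr h1)
    simpa using this
  have x1 : MC.x (MC.i 1) 1 = 1 := by
    have := MC.x_run (MC.i 1) 1 1 (by norm_num) (by norm_num) (Or.inr (by simpa using h1.symm))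
      (fun t _ ht => by
        have : t = 1 := by omega
        rw [this]) (Or.inr (by
          show MC.i 2 ≠ MC.i 1
          rw [h2]
          exact h1.symm))
    simpa using this
  have x2 : MC.x (MC.i 0) 2 = 2 := by
    have := MC.x_run (MC.i 0) 2 2 (by norm_num) (by norm_num) (Or.inr (by simpa using h1))
      (fun t ht ht' => by
        have : t = 2 ∨ t = 3 := by omega
        rcases this with rfl | rfl
        · exact h2
        · exact h3) (Or.inr (by
          show MC.i 4 ≠ MC.i 0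
          rw [h4]
          exact h1))
    simpa using this
  have x3 : MC.x (MC.i 0) 3 = 0 := by
    have := MC.x_succ (MC.i 0) 2 (by norm_num)
    rw [h2, MC.A_diag, x2] at this
    simpa using this
  have x4 : MC.x (MC.i 1) 4 = 1 := by
    have := MC.x_run (MC.i 1) 4 1 (by norm_num) (by norm_num) (Or.inr (by
        show MC.i 3 ≠ MC.i 1
        rw [h3]
        exact h1.symm))
      (fun t _ ht => by
        have : t = 4 := by omega
        rw [this]
        exact h4) (Or.inr (by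
          show MC.i 5 ≠ MC.i 1
          rw [h5]
          exact h1.symm))
    simpa using this
  have x5 : MC.x (MC.i 0) 5 = 1 := by
    have := MC.x_run (MC.i 0) 5 1 (by norm_num) (by norm_num) (Or.inr (by
        show MC.i 4 ≠ MC.i 0
        rw [h4]
        exact h1))
      (fun t _ ht => by
        have : t = 5 := by omega
        rw [this]
        exact h5) (Or.inl rfl)
    simpa using this
  have a0 : MC.φ 0 * MC.ε 0 = 1 := by
    rw [MC.hrel 0 (by norm_num), x0, if_neg (by simp)]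
    norm_num
  have a1 : MC.φ 1 * MC.ε 1 = 1 := by
    rw [MC.hrel 1 (by norm_num), x1, if_neg (fun h => h1 h.2.symm)]
    norm_num
  have a2 : MC.φ 2 * MC.ε 2 = 2 := by
    rw [MC.hrel 2 (by norm_num), h2, x2, if_neg (fun h => h1 h.2)]
    norm_num
  have a3 : MC.φ 3 * MC.ε 3 = 2 := by
    rw [MC.hrel 3 (by norm_num), h3, x3, if_pos ⟨by norm_num, h2⟩]
    have : (3 - 1 : ℕ) = 2 := rfl
    rw [this, a2]
    norm_num
  have a4 : MC.φ 4 * MC.ε 4 = 1 := by
    rw [MC.hrel 4 (by norm_num), h4, x4, if_neg (fun h => by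
      have h6 : MC.i 3 = MC.i 1 := h.2
      rw [h3] at h6
      exact h1 h6.symm)]
    norm_num
  have a5 : MC.φ 5 * MC.ε 5 = 1 := by
    rw [MC.hrel 5 (by norm_num), h5, x5, if_neg (fun h => by
      have h6 : MC.i 4 = MC.i 0 := h.2
      rw [h4] at h6
      exact h1 h6)]
    norm_num
  -- the rescaled basis
  obtain ⟨c, hc⟩ : ∃ c : ℕ → ℂ, c = fun k => ∏ l ∈ Finset.range k, MC.φ l := ⟨_, rfl⟩
  have hc1 : ∀ k, c (k + 1) = c k * MC.φ k := by
    intro k
    rw [hc]
    exact Finset.prod_range_succ _ _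
  have hc0 : ∀ k ≤ 6, c k ≠ 0 := by
    intro k hk
    rw [hc]
    exact Finset.prod_ne_zero_iff.mpr fun l hl => MC.hφ l (by
      rw [Finset.mem_range] at hl; omega)
  obtain ⟨u, hu⟩ : ∃ u : Basis (Fin 7) ℂ (Fin 7 → ℂ), ∀ k, u k = c k.1 • v k :=
    ⟨v.isUnitSMul (w := fun k => c k.1) (fun k => (hc0 k.1 (by omega)).isUnit), fun k =>
      Basis.isUnitSMul_apply _ _⟩
  have Fu : ∀ j k (hk : k < 6), MC.i k = j →
      matOf (F j) *ᵥ u ⟨k, by omega⟩ = u ⟨k + 1, by omega⟩ := by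
    rintro j k hk rfl
    rw [matOf_mulVec, hu, hu, map_smul, hF k hk, smul_smul, hc1]
  have Fu0 : ∀ j k (hk : k < 6), MC.i k ≠ j → matOf (F j) *ᵥ u ⟨k, by omega⟩ = 0 := by
    intro j k hk h
    rw [matOf_mulVec, hu, map_smul, hF0 j k hk h, smul_zero]
  have Fu6 : ∀ j, matOf (F j) *ᵥ u ⟨6, by omega⟩ = 0 := by
    intro j
    rw [matOf_mulVec, hu, map_smul, hF6, smul_zero]
  have Eu : ∀ j k (hk : k < 6), MC.i k = j →
      matOf (E j) *ᵥ u ⟨k + 1, by omega⟩ = (MC.φ k * MC.ε k) • u ⟨k, by omega⟩ := by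
    rintro j k hk rfl
    rw [matOf_mulVec, hu, hu, map_smul, hE k hk, smul_smul, smul_smul]
    congr 1
    show c (k + 1) * _ = _ * c k
    rw [hc1]
    ring
  have Eu0 : ∀ j k (hk : k < 6), MC.i k ≠ j → matOf (E j) *ᵥ u ⟨k + 1, by omega⟩ = 0 := by
    intro j k hk h
    rw [matOf_mulVec, hu, map_smul, hE0 j k hk h, smul_zero]
  have Euz : ∀ j, matOf (E j) *ᵥ u ⟨0, by omega⟩ = 0 := by
    intro j
    rw [matOf_mulVec, hu, map_smul, hEz, smul_zero]
  -- the diagonal elements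
  have hd : ∀ X ∈ L, ∀ d : Fin 7 → ℂ, (∀ k, X *ᵥ u k = d k • u k) →
      ∃ s t : ℂ, d = ![2 * s + t, s + t, s, 0, -s, -s - t, -2 * s - t] := by
    intro X hX d hd
    have h6 : ∀ a, X *ᵥ v a = d a • v a := by
      intro a
      have h7 := hd a
      rw [hu, Matrix.mulVec_smul, smul_comm] at h7
      exact smul_right_injective _ (hc0 a.1 (by omega)) h7
    obtain ⟨ρ, hρ⟩ := hdiag ⟨Matrix.toLin' X, X, hX, rfl⟩ d (fun a => by
      show Matrix.toLin' X (v a) = _
      rw [Matrix.toLin'_apply]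
      exact h6 a)
    have h7 := trace_of_diag X v d h6
    rw [htr X hX, Fin.sum_univ_seven] at h7
    have e0 := hρ 0 (by norm_num)
    have e1 := hρ 1 (by norm_num)
    have e2 := hρ 2 (by norm_num)
    have e3 := hρ 3 (by norm_num)
    have e4 := hρ 4 (by norm_num)
    have e5 := hρ 5 (by norm_num)
    rw [h2] at e2
    rw [h3] at e3
    rw [h4] at e4
    rw [h5] at e5
    replace e0 : d 0 - d 1 = ρ (MC.i 0) := e0
    replace e1 : d 1 - d 2 = ρ (MC.i 1) := e1
    replace e2 : d 2 - d 3 = ρ (MC.i 0) := e2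
    replace e3 : d 3 - d 4 = ρ (MC.i 0) := e3
    replace e4 : d 4 - d 5 = ρ (MC.i 1) := e4
    replace e5 : d 5 - d 6 = ρ (MC.i 0) := e5
    have d3 : d 3 = 0 := by
      have : 7 * d 3 = 0 := by linear_combination -h7 - e0 - 2 * e1 - 3 * e2 + 3 * e3 + 2 * e4 + e5
      simpa using this
    refine ⟨ρ (MC.i 0), ρ (MC.i 1), ?_⟩
    ext k
    fin_cases k
    · show d 0 = 2 * ρ (MC.i 0) + ρ (MC.i 1)
      linear_combination e0 + e1 + e2 + d3
    · show d 1 = ρ (MC.i 0) + ρ (MC.i 1)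
      linear_combination e1 + e2 + d3
    · show d 2 = ρ (MC.i 0)
      linear_combination e2 + d3
    · exact d3
    · show d 4 = -ρ (MC.i 0)
      linear_combination d3 - e3
    · show d 5 = -ρ (MC.i 0) - ρ (MC.i 1)
      linear_combination d3 - e3 - e4
    · show d 6 = -2 * ρ (MC.i 0) - ρ (MC.i 1)
      linear_combination d3 - e3 - e4 - e5
  obtain ⟨s, t, hst⟩ := hd B hB m (fun k => by
    rw [hu, Matrix.mulVec_smul, hm, smul_comm])
  refine ⟨u, matOf (E (MC.i 0)), matOf (E (MC.i 1)), matOf (F (MC.i 0)), matOf (F (MC.i 1)), s, t,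
    matOf_mem _, matOf_mem _, matOf_mem _, matOf_mem _, ?_, ?_, ?_, ?_, ?_, ?_, hd⟩
  · intro k
    fin_cases k
    · exact Fu _ 0 (by norm_num) rfl
    · exact Fu0 _ 1 (by norm_num) h1
    · exact Fu _ 2 (by norm_num) h2
    · exact Fu _ 3 (by norm_num) h3
    · exact Fu0 _ 4 (by norm_num) (by rw [h4]; exact h1)
    · exact Fu _ 5 (by norm_num) h5
    · exact Fu6 _
  · intro k
    fin_cases k
    · exact Fu0 _ 0 (by norm_num) h1.symm
    · exact Fu _ 1 (by norm_num) rfl
    · exact Fu0 _ 2 (by norm_num) (by rw [h2]; exact h1.symm)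
    · exact Fu0 _ 3 (by norm_num) (by rw [h3]; exact h1.symm)
    · exact Fu _ 4 (by norm_num) h4
    · exact Fu0 _ 5 (by norm_num) (by rw [h5]; exact h1.symm)
    · exact Fu6 _
  · intro k
    fin_cases k
    · exact Euz _
    · have := Eu _ 0 (by norm_num) rfl
      rw [a0, one_smul] at this
      exact this
    · exact Eu0 _ 1 (by norm_num) h1
    · have := Eu _ 2 (by norm_num) h2
      rw [a2] at this
      exact this
    · have := Eu _ 3 (by norm_num) h3
      rw [a3] at this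
      exact this
    · exact Eu0 _ 4 (by norm_num) (by rw [h4]; exact h1)
    · have := Eu _ 5 (by norm_num) h5
      rw [a5, one_smul] at this
      exact this
  · intro k
    fin_cases k
    · exact Euz _
    · exact Eu0 _ 0 (by norm_num) h1.symm
    · have := Eu _ 1 (by norm_num) rfl
      rw [a1, one_smul] at this
      exact this
    · exact Eu0 _ 2 (by norm_num) (by rw [h2]; exact h1.symm)
    · exact Eu0 _ 3 (by norm_num) (by rw [h3]; exact h1.symm)
    · have := Eu _ 4 (by norm_num) h4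
      rw [a4, one_smul] at this
      exact this
    · exact Eu0 _ 5 (by norm_num) (by rw [h5]; exact h1.symm)
  · intro k
    rw [← hst, hu, Matrix.mulVec_smul, hm, smul_comm]
  · intro S hS hE1 hE2 hF1 hF2 X hX
    have hE' : ∀ j, matOf (E j) ∈ S := by
      intro j
      by_cases hj0 : j = MC.i 0
      · rw [hj0]; exact hE1
      by_cases hj1 : j = MC.i 1
      · rw [hj1]; exact hE2
      have h6 : matOf (E j) = 0 := by
        rw [← Matrix.toLin'.map_eq_zero_iff]
        apply u.ext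
        intro k
        rw [Matrix.toLin'_apply, LinearMap.zero_apply]
        fin_cases k
        · exact Euz _
        · exact Eu0 _ 0 (by norm_num) (Ne.symm hj0)
        · exact Eu0 _ 1 (by norm_num) (Ne.symm hj1)
        · exact Eu0 _ 2 (by norm_num) (by rw [h2]; exact Ne.symm hj0)
        · exact Eu0 _ 3 (by norm_num) (by rw [h3]; exact Ne.symm hj0)
        · exact Eu0 _ 4 (by norm_num) (by rw [h4]; exact Ne.symm hj1)
        · exact Eu0 _ 5 (by norm_num) (by rw [h5]; exact Ne.symm hj0)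
      rw [h6]
      exact S.zero_mem
    have hF' : ∀ j, matOf (F j) ∈ S := by
      intro j
      by_cases hj0 : j = MC.i 0
      · rw [hj0]; exact hF1
      by_cases hj1 : j = MC.i 1
      · rw [hj1]; exact hF2
      have h6 : matOf (F j) = 0 := by
        rw [← Matrix.toLin'.map_eq_zero_iff]
        apply u.ext
        intro k
        rw [Matrix.toLin'_apply, LinearMap.zero_apply]
        fin_cases k
        · exact Fu0 _ 0 (by norm_num) (Ne.symm hj0)
        · exact Fu0 _ 1 (by norm_num) (Ne.symm hj1)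
        · exact Fu0 _ 2 (by norm_num) (by rw [h2]; exact Ne.symm hj0)
        · exact Fu0 _ 3 (by norm_num) (by rw [h3]; exact Ne.symm hj0)
        · exact Fu0 _ 4 (by norm_num) (by rw [h4]; exact Ne.symm hj1)
        · exact Fu0 _ 5 (by norm_num) (by rw [h5]; exact Ne.symm hj0)
        · exact Fu6 _
      rw [h6]
      exact S.zero_mem
    have h6 := hgen (S.comap ((LinearMap.toMatrix' : _ ≃ₗ[ℂ] Matrix (Fin 7) (Fin 7) ℂ).toLinearMap ∘ₗ
      (opL L hbr).toSubmodule.subtype)) (fun x hx y hy => by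
        have h7 : LinearMap.toMatrix' ((⁅x, y⁆ : opL L hbr) : Module.End ℂ (Fin 7 → ℂ)) =
            matOf x * matOf y - matOf y * matOf x := by
          show LinearMap.toMatrix' (⁅(x : Module.End ℂ (Fin 7 → ℂ)), (y : Module.End ℂ (Fin 7 → ℂ))⁆) = _
          rw [LieRing.of_associative_ring_bracket, map_sub, LinearMap.toMatrix'_mul,
            LinearMap.toMatrix'_mul]
          rfl
        rw [Submodule.mem_comap]
        show LinearMap.toMatrix' ((⁅x, y⁆ : opL L hbr) : Module.End ℂ (Fin 7 → ℂ)) ∈ S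
        rw [h7]
        exact hS _ hx _ hy) (fun j => hE' j) (fun j => hF' j)
    have h7 : (⟨Matrix.toLin' X, X, hX, rfl⟩ : opL L hbr) ∈ (S.comap
      ((LinearMap.toMatrix' : _ ≃ₗ[ℂ] Matrix (Fin 7) (Fin 7) ℂ).toLinearMap ∘ₗ
      (opL L hbr).toSubmodule.subtype)) := by
      rw [h6]
      exact Submodule.mem_top
    rw [Submodule.mem_comap] at h7
    have h8 : LinearMap.toMatrix' (Matrix.toLin' X) ∈ S := h7
    rw [LinearMap.toMatrix'_toLin'] at h8
    exact h8

end Pool.Agent.GP
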