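import Pool.Agent.Helper83.Ball.Types

/-!
Abelian varieties with a separated place of given multiplicity.
-/

namespace Pool.Agent.GPC

/-- The CM field `K` acts on `H_1(A)` by `ρ` through endomorphisms of `A` (tensor `ℚ`), the
dimension of `H_1(A, ℚ)` over `K` is `m`, the Rosati involution is complex conjugation on `K`, and
every endomorphism of `A` (tensor `ℚ`) which commutes with `K` is in `K`. The multiplicities in
`Lie A` of some embedding `σ₀` of `K` and of its complex conjugate are `q` and `m - q` (in some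
order), and `σ₀` is separated from every other embedding `σ` which is not its complex conjugate: for
some automorphism `g` of `ℂ` the multiplicity of `g σ₀` in `Lie A` is neither `0` nor `m`, and the
multiplicity of `g σ` is `0` or `m`. -/
structure AbVar.IsMultSep (A : AbVar) (K : Type) [Field K] [NumberField K]
    [NumberField.IsCMField K] (m q : ℕ) (ρ : K → A.H1 → A.H1) : Prop where
  one : ∀ v, ρ 1 v = v
  mul : ∀ x y v, ρ (x * y) v = ρ x (ρ y v)
  add : ∀ x y v, ρ (x + y) v = ρ x v + ρ y v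
  rank : m * Module.finrank ℚ K = 2 * A.g
  endo : ∀ x, A.IsEnd (ρ x)
  rosati : ∀ x, A.IsAdjoint (ρ x) (ρ (cmConj K x))
  centralizer : ∀ f, A.IsEnd f → (∀ x v, f (ρ x v) = ρ x (f v)) → ∃ x, ∀ v, f v = ρ x v
  signature : ∃ σ₀ : K →+* ℂ, Module.finrank ℂ (A.eigenFil ρ σ₀) = q ∧
    ∀ σ : K →+* ℂ, σ ≠ σ₀ → σ ≠ NumberField.ComplexEmbedding.conjugate σ₀ →
      ∃ g : ℂ ≃+* ℂ, ¬ A.IsPureAt ρ ((g : ℂ →+* ℂ).comp σ₀) ∧
        A.IsPureAt ρ ((g : ℂ →+* ℂ).comp σ)

end Pool.Agent.GPC
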